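import Pool.Agent.Helper2.MU.Wt
import Pool.Graph.R_pool_sql_team_seeded_5cf16337.K3h45.MU.Alg

/-!
# The Lie algebra of one block
-/

set_option autoImplicit false
set_option linter.unusedSectionVars false

namespace Pool.Agent.Helper2.MU

open Module Finset Pool.Agent.Y126.JB Pool.Agent.Y126.MU Pool.Agent.V1141.OF
  Pool.Agent.TH118.SG Pool.Agent.Y130 Pool.Agent.TH125.Gal
open Pool.Agent.H204R3.CM Pool.Agent.H204R3.SP Pool.Agent.H204R3.GP
open Pool.Agent.K3h45.MU (skew_h skew_f)
open Pool.Agent.Y137.MV (IsEqv kills_zero kills_add kills_smul kills_conj eqv_pull dd_kills)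

section io

variable {k : Type} [Field k] [CharZero k] {I : Type} [Fintype I] [DecidableEq I]
  {V : I → Type} [∀ i, AddCommGroup (V i)] [∀ i, Module k (V i)]

theorem io_pow (i : I) (X : Module.End k (V i)) (n : ℕ) :
    io k i (X ^ (n + 1)) = io k i X ^ (n + 1) := by
  induction n with
  | zero => rw [zero_add, pow_one, pow_one]
  | succ n ih => rw [pow_succ, io_mul, ih, ← pow_succ]

theorem io_sum (i : I) {A : Type} (s : Finset A) (X : A → Module.End k (V i)) :
    io k i (∑ a ∈ s, X a) = ∑ a ∈ s, io k i (X a) := by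
  classical
  induction s using Finset.induction_on with
  | empty => rw [Finset.sum_empty, Finset.sum_empty, io_zero]
  | insert a s ha ih => rw [Finset.sum_insert ha, Finset.sum_insert ha, io_add, ih]

theorem io_lg (i : I) (X : Module.End k (V i)) (n : ℕ) :
    io k i (lg k X n) = lg k (io k i X) n := by
  rw [lg, Al, io_sum, lg, Al]
  refine Finset.sum_congr rfl fun a _ => ?_
  rw [io_smul]
  cases a with
  | zero => rw [bp_zero, Polynomial.coeff_one, if_neg one_ne_zero, zero_smul, zero_smul]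
  | succ a => rw [io_pow]

end io

section fam

variable {k : Type} [Field k] [CharZero k] [IsAlgClosed k] {I : Type} [Fintype I]
  [DecidableEq I] {V : I → Type} [∀ i, AddCommGroup (V i)] [∀ i, Module k (V i)]
  [∀ i, FiniteDimensional k (V i)] {M : Type} [AddCommGroup M] [Module k M]
  [FiniteDimensional k M] {Γ : Type} [Group Γ] (ρ : ∀ i, Representation k Γ (V i))
  (τ : Representation k Γ M) (χ : Γ →* k) (wt : I → ℕ) (ω : ∀ i, V i →ₗ[k] V i →ₗ[k] k)
  (j : k →+* ℂ) (m : ℤ)

/-- The logarithm of a unipotent element which acts trivially on the other spaces. -/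
theorem lgO_mem {i : I} {γ : Γ} {n : ℕ} (hn : (ρ i γ - 1) ^ (n + 1) = 0)
    (hγ : ∀ i', i' ≠ i → ρ i' γ = 1) (hτ : τ γ = 1)
    (hω : ∀ x y, ω i (ρ i γ x) (ρ i γ y) = ω i x y) :
    lg k (ρ i γ - 1) (n + 1) ∈ lieO ρ τ ω i := by
  have hsum : sumRep ρ γ - 1 = io k i (ρ i γ - 1) := by
    refine LinearMap.ext fun v => funext fun i' => ?_
    rw [LinearMap.sub_apply, Pi.sub_apply, sumRep_apply, Module.End.one_apply, io_apply,
      LinearMap.single_apply]
    by_cases h : i' = i
    · subst h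
      rw [Pi.single_eq_same, LinearMap.sub_apply, Module.End.one_apply]
    · rw [Pi.single_eq_of_ne h, hγ i' h, Module.End.one_apply, sub_self]
  have hu : (sumRep ρ γ - 1) ^ (n + 1) = 0 := by
    rw [hsum, ← io_pow, hn, io_zero]
  refine ⟨?_, fun κ _ _ φ l hφ => ?_⟩
  · have h1 := lg_mem (B := ω i) (ρ := ρ i) (σ := (1 : Γ →* (k →ₗ[k] k))) (S := Fin 0)
      (g := γ) hn hω rfl
    exact h1.1
  · obtain ⟨Δ, hΔ, h1⟩ := hφ
    obtain ⟨N, hN, hgN⟩ := exists_pow hΔ γ
    have h2 : Kill (lg k (sumRep ρ γ - 1) (n + 1)) φ := by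
      refine lg_kill φ hu ?_
      refine Set.infinite_of_injective_forall_mem (f := fun l : ℕ => N * l) ?_ ?_
      · intro l l' hl
        exact Nat.eq_of_mul_eq_mul_left hN hl
      · intro l v
        have h3 : γ ^ (N * l) ∈ Δ := by
          rw [pow_mul]
          exact Subgroup.pow_mem _ hgN l
        have h4 := h1 _ h3 v
        rw [map_pow, map_pow, hτ, one_pow] at h4
        exact h4
    rw [io_lg, ← hsum]
    intro v
    have h3 := congrArg l (h2 v)
    rw [map_sum, map_zero] at h3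
    exact h3

/-- The block theorem for one `V i`. -/
theorem block {i : I} {γ φ₀ F : Γ} {q : ℕ} {s : ℤ} (hs : s = 1 ∨ s = -1)
    (hsym : ∀ u v, ω i u v = (s : k) * ω i v u) (hnd : ∀ u, (∀ v, ω i v u = 0) → u = 0)
    (hω : ∀ g u v, ω i (ρ i g u) (ρ i g v) = χ g ^ wt i * ω i u v)
    (hF : ‖j (χ F)‖ ≠ 1)
    (hV : ∀ i a, Module.End.HasEigenvalue (ρ i F) a → ‖j a‖ ^ 2 = ‖j (χ F)‖ ^ wt i)
    (hM : ∀ a, Module.End.HasEigenvalue (τ F) a → ‖j a‖ ^ 2 = ‖j (χ F)‖ ^ m)
    (hγ1 : IsNilpotent (ρ i γ - 1)) (hγ2 : (ρ i γ - 1) ^ (finrank k (V i) - 1) ≠ 0)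
    (hγ3 : ∀ i', i' ≠ i → ρ i' γ = 1) (hγ4 : τ γ = 1) (hγ5 : χ γ = 1)
    (hq : 2 ≤ q) (hφγ : ρ i φ₀ * ρ i γ = ρ i γ ^ q * ρ i φ₀)
    (hV' : ∀ i', i' ≠ i → ∀ a, Module.End.HasEigenvalue (ρ i' φ₀) a →
      ‖j a‖ ^ 2 = ‖j (χ φ₀)‖ ^ wt i')
    (hM' : ∀ a, Module.End.HasEigenvalue (τ φ₀) a → ‖j a‖ ^ 2 = ‖j (χ φ₀)‖ ^ m)
    (hnp : (s = 1 ∧ finrank k (V i) ≤ 3) ∨ finrank k (V i) ≤ 2 ∨
      ∃ g : Γ, ∀ c a : k, (ρ i g).charpoly ≠
        ∏ l ∈ range (finrank k (V i)), (Polynomial.X - Polynomial.C (c * a ^ l)))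
    (h7 : s = 1 → finrank k (V i) ≠ 7) :
    ∃ (d : ℕ) (b : Basis (Fin d) k (V i)) (inv : Fin d → Fin d) (J : Fin d → k),
      (∀ a, J a ≠ 0) ∧ (∀ a, inv (inv a) = a) ∧
      (∀ x y, ω i (b x) (b y) = if y = inv x then J x else 0) ∧
      ∀ a c, TT (ω i) (s : k) (b a) (b c) ∈ lieO ρ τ ω i := by
  have hs' : (s : k) = 1 ∨ (s : k) = -1 := by
    rcases hs with h | h
    · left
      rw [h, Int.cast_one]
    · right
      rw [h, Int.cast_neg, Int.cast_one]
  have hs0 : (s : k) ≠ 0 := by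
    rcases hs' with h | h <;> rw [h] <;> norm_num
  have hnd' : ∀ u, (∀ v, ω i u v = 0) → u = 0 := by
    intro u hu
    apply hnd
    intro v
    rw [hsym, hu, mul_zero]
  -- the dimension
  have hpos : 0 < finrank k (V i) := by
    rw [Module.finrank_pos_iff_exists_ne_zero]
    by_contra hcon
    push Not at hcon
    apply hγ2
    refine LinearMap.ext fun v => ?_
    rw [hcon v, map_zero, map_zero]
  obtain ⟨D, hdim⟩ : ∃ D, finrank k (V i) = D + 1 := ⟨finrank k (V i) - 1, by omega⟩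
  rw [hdim, Nat.add_sub_cancel] at hγ2
  have hM0 := pow_top hγ1 hdim
  obtain ⟨e, he⟩ : ∃ e, e = lg k (ρ i γ - 1) (D + 1) := ⟨_, rfl⟩
  obtain ⟨W, hW, hcomm, hlg⟩ := lg_eq (K := k) (ρ i γ - 1) hM0
  rw [← he] at hlg
  have henil : IsNilpotent e := ⟨D + 1, by rw [hlg, hcomm.mul_pow, hM0, zero_mul]⟩
  have heD : e ^ D ≠ 0 := by
    intro h0
    apply hγ2
    rw [hlg, hcomm.mul_pow] at h0
    exact (hW.pow D).mul_left_eq_zero.1 h0
  obtain ⟨v, hv⟩ : ∃ v, (e ^ D) v ≠ 0 := by
    by_contra hcon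
    push Not at hcon
    exact heD (LinearMap.ext fun v => hcon v)
  have hφe : ρ i φ₀ * e = (q : k) • (e * ρ i φ₀) := by
    rw [he]
    exact lg_frob hM0 hφγ
  have hinj : Function.Injective (ρ i φ₀) := by
    intro x y hxy
    have h1 := congrArg (ρ i φ₀⁻¹) hxy
    rw [← Module.End.mul_apply, ← Module.End.mul_apply, ← map_mul, inv_mul_cancel, map_one] at h1
    exact h1
  have hqi : ∀ l : ℕ, l ≠ 0 → (q : k) ^ l ≠ 1 := by
    intro l hl h1
    have h2 : (q ^ l : ℕ) = 1 := by exact_mod_cast h1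
    have h3 : 1 < q ^ l := Nat.one_lt_pow hl (by omega)
    omega
  obtain ⟨u, lam, hlam, hφu, hu⟩ := exists_gen henil hdim hv hφe hinj hqi
  obtain ⟨h, f, hp⟩ := exists_prin henil hdim hu
  obtain ⟨w, hw⟩ : ∃ w : ℕ → V i, w = fun l => (e ^ l) u := ⟨_, rfl⟩
  rw [← hw] at hp
  have hφw : ∀ l, ρ i φ₀ (w l) = (lam * (q : k) ^ l) • w l := by
    intro l
    induction l with
    | zero =>
      rw [hw, pow_zero, mul_one]
      exact hφu
    | succ l ih =>
      rw [← hp.e_w, ← Module.End.mul_apply, hφe, LinearMap.smul_apply, Module.End.mul_apply, ih,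
        map_smul, smul_smul, pow_succ]
      congr 1
      ring
  -- the element `e`
  have heL : e ∈ lieO ρ τ ω i := by
    rw [he]
    exact lgO_mem ρ τ ω hM0 hγ3 hγ4 fun x y => by rw [hω, hγ5, one_pow, one_mul]
  have hsk : ∀ Y ∈ lieO ρ τ ω i, ∀ u v, ω i (Y u) v + ω i u (Y v) = 0 := fun Y hY => hY.1
  have hbr : ∀ Y ∈ lieO ρ τ ω i, ∀ Z ∈ lieO ρ τ ω i, Y * Z - Z * Y ∈ lieO ρ τ ω i :=
    fun Y hY Z hZ => lieO_bracket ρ τ ω i hY hZ
  have hes := hsk e heL
  have hpair : ω i (w 0) (w D) ≠ 0 := by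
    intro h0
    apply hp.ne_zero (le_refl D)
    refine hnd' _ fun v => ?_
    have h1 : ∀ l, l ≤ D → w l ∈ LinearMap.ker (ω i (w D)) := by
      intro l _
      rw [LinearMap.mem_ker]
      by_cases hl : l = 0
      · rw [hl, hsym, h0, mul_zero]
      · have h2 := om_pow hes D (w 0) (w l)
        rw [hp.pow, hp.pow, zero_add, hp.zero (i := l + D) (by omega), map_zero, mul_zero] at h2
        exact h2
    exact LinearMap.mem_ker.1 (hp.mem_all h1 v)
  have hform : ∀ l l', ω i (w l) (w l') ≠ 0 → χ φ₀ ^ wt i = lam ^ 2 * (q : k) ^ (l + l') := by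
    intro l l' hll
    have h1 := hω φ₀ (w l) (w l')
    rw [hφw, hφw, map_smul, map_smul, LinearMap.smul_apply, smul_eq_mul, smul_eq_mul] at h1
    have h2 : (χ φ₀ ^ wt i - lam ^ 2 * (q : k) ^ (l + l')) * ω i (w l) (w l') = 0 := by
      rw [pow_add]
      linear_combination -h1
    exact sub_eq_zero.1 ((mul_eq_zero.1 h2).resolve_right hll)
  have hμ : lam ^ 2 * (q : k) ^ D = χ φ₀ ^ wt i := by
    have h1 := hform 0 D hpair
    rw [zero_add] at h1
    exact h1.symm
  have hor : ∀ l l', l + l' ≠ D → ω i (w l) (w l') = 0 := by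
    intro l l' hll
    by_contra hne
    have h1 := hform l l' hne
    rw [← hμ] at h1
    have h2 : (q : k) ^ D = (q : k) ^ (l + l') := mul_left_cancel₀ (pow_ne_zero 2 hlam) h1
    have h3 : q ^ D = q ^ (l + l') := by exact_mod_cast h2
    exact hll (Nat.pow_right_injective hq h3).symm
  have hhs := skew_h hp hor
  have hfs := skew_f hp hes hor
  have hhL : h ∈ lieO ρ τ ω i :=
    ⟨hhs, fun κ _ _ φ l hφ => h_kills ρ τ χ wt j m hp hdim hF hV hM hV' hM' hq hφw hμ hφ l⟩
  have hef : e * f - f * e = h := hp.ef.symm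
  have hfL : f ∈ lieO ρ τ ω i := by
    refine lieO_opp ρ τ ω i e f (-2) heL hfs (by rw [hef]; exact hhL) ?_ (by norm_num)
    rw [hef]
    exact hp.hf
  -- the parity
  have hpar : (s : k) = (-1) ^ D := by
    have h1 := om_pow hes D (w 0) (w 0)
    rw [hp.pow, zero_add, hsym (w D) (w 0)] at h1
    exact mul_right_cancel₀ hpair h1
  have hne : 0 < D → ((s = 1 ∧ finrank k (V i) ≤ 3) ∨ finrank k (V i) ≤ 2) ∨
      ¬ lieO ρ τ ω i ≤ Submodule.span k {e, h, f} := by
    intro hD
    rcases hnp with h1 | h1 | ⟨g, hg⟩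
    · exact Or.inl (Or.inl h1)
    · exact Or.inl (Or.inr h1)
    · right
      intro hle
      have hge : Submodule.span k {e, h, f} ≤ lieO ρ τ ω i := by
        rw [Submodule.span_le]
        intro X hX
        rcases hX with rfl | rfl | rfl
        · exact heL
        · exact hhL
        · exact hfL
      obtain ⟨x', y', c, v', h1, h2, h3⟩ := hp.exists_nilp hD (g := ρ i g) (g' := ρ i g⁻¹)
        (by rw [← map_mul, inv_mul_cancel, map_one])
        (fun X hX => hle (lieO_conj ρ τ ω i (c := fun g => χ g ^ wt i) hω g (hge hX)))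
      obtain ⟨a, ha⟩ := charpoly_geom h1 h2 hdim h3
      rw [hdim] at hg
      exact hg a c ha
  -- the form on the basis
  obtain ⟨b, hb⟩ := hp.exists_basis hdim
  refine ⟨D + 1, b, Fin.rev, fun x => ω i (w x) (w (D - x)), fun x => ?_, Fin.rev_rev,
    fun x y => ?_, fun a c => ?_⟩
  · exact hp.pair' hes hhs hnd' (by omega)
  · rw [hb, hb]
    by_cases hxy : y = Fin.rev x
    · rw [if_pos hxy, hxy, Fin.val_rev]
      congr 2
      omega
    · rw [if_neg hxy]
      refine hor _ _ fun h1 => hxy ?_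
      rw [Fin.ext_iff, Fin.val_rev]
      omega
  · rw [hb, hb]
    rcases hs with rfl | rfl
    · have hDe : Even D := by
        by_contra hodd
        rw [Nat.not_even_iff_odd] at hodd
        rw [hodd.neg_one_pow, Int.cast_one] at hpar
        have h2 : (2 : k) = 0 := by linear_combination hpar
        exact two_ne_zero h2
      obtain ⟨D', hD'⟩ := hDe
      have hDe : Even D := ⟨D', hD'⟩
      rw [Int.cast_one] at hsym ⊢
      refine full_sym hp hes hhs hnd' hbr hsk (fun u v => by rw [hsym, one_mul]) hDe ?_ heL hhL hfL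
        ?_ (by omega) (by omega)
      · have h3 := h7 rfl
        omega
      · rcases Nat.eq_zero_or_pos D with h0 | h0
        · left
          omega
        · rcases hne h0 with (h1 | h1) | h1
          · left
            omega
          · left
            omega
          · exact Or.inr h1
    · have hDo : Odd D := by
        by_contra heven
        rw [Nat.not_odd_iff_even] at heven
        rw [heven.neg_one_pow, Int.cast_neg, Int.cast_one] at hpar
        have h2 : (2 : k) = 0 := by linear_combination -hpar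
        exact two_ne_zero h2
      obtain ⟨D', hD'⟩ := hDo
      have hD : 0 < D := by omega
      have halt : ∀ v, ω i v v = 0 := by
        intro v
        have h1 := hsym v v
        rw [Int.cast_neg, Int.cast_one] at h1
        have h2 : (2 : k) * ω i v v = 0 := by linear_combination h1
        exact (mul_eq_zero.1 h2).resolve_left two_ne_zero
      have htop : e ^ D ∈ lieO ρ τ ω i := by
        rcases hne hD with (h1 | h1) | h1
        · exact absurd h1.1 (by norm_num)
        · rw [show D = 1 by omega, pow_one]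
          exact heL
        · obtain ⟨k', hk2, hkD, hkL⟩ := hp.exists_pow hes hhs hnd' hbr hsk hD heL hhL h1
          exact hp.top_of_pow hes hhs hnd' halt hbr hsk hfL hk2 hkD hkL
      have h1 := hp.full_of_top hes hhs hfs hnd' halt hbr hfL htop hsk (w a) (w c)
      have h2 : TT (ω i) ((-1 : ℤ) : k) (w a) (w c) = SS (ω i) (w a) (w c) := by
        ext z
        rw [TT_apply, SS_apply, Int.cast_neg, Int.cast_one]
        module
      rw [h2]
      exact h1

end fam

end Pool.Agent.Helper2.MU
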