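import Pool.Agent.Helper2.MU.Full
import Pool.Graph.R_pool_sql_team_seeded_843ab51a.V1141.SO.Lie
import Pool.Graph.R_seed8.Y130.Eig
import Pool.Graph.R_seed8.Y126.MU.Mem

/-!
# Weights
-/

set_option autoImplicit false
set_option linter.unusedSectionVars false

namespace Pool.Agent.Helper2.MU

open Module Finset Pool.Agent.Y126.JB Pool.Agent.Y126.MU Pool.Agent.V1141.OF
  Pool.Agent.TH118.SG Pool.Agent.Y130
open Pool.Agent.H204R3.CM Pool.Agent.H204R3.SP Pool.Agent.H204R3.GP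
open Pool.Agent.Y137.MV (IsEqv kills_zero kills_add kills_smul kills_conj eqv_pull dd_kills)

section eig

variable {k : Type} [Field k] [CharZero k] [IsAlgClosed k] {H : Type} [AddCommGroup H]
  [Module k H] {M : Type} [AddCommGroup M] [Module k M] [FiniteDimensional k M]
  {Γ : Type} [Group Γ] {ρ : Representation k Γ H} {τ : Representation k Γ M}

/-- An eigenvalue from the values of an equivariant map. -/
theorem exists_eig {B : Type} (b : B → H) (β : B → k) (F : Γ)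
    (hb : ∀ x, b x ∈ Module.End.maxGenEigenspace (ρ F) (β x)) {κ : Type} [Fintype κ]
    [DecidableEq κ] {φ : MultilinearMap k (fun _ : κ => H) M} (hφ : IsEqv ρ τ φ) (K : κ → B)
    (hK : φ (fun l => b (K l)) ≠ 0) :
    ∃ a, Module.End.HasEigenvalue (τ F) a ∧ ∃ N, 0 < N ∧ a ^ N = (∏ l, β (K l)) ^ N := by
  obtain ⟨Δ, hΔ, h⟩ := hφ
  obtain ⟨N, hN, -, hNΔ⟩ := Subgroup.exists_pow_mem_of_index_ne_zero hΔ.index_ne_zero F
  have h1 : φ (fun l => b (K l)) ∈ Module.End.maxGenEigenspace ((τ F : End k M) ^ N) (∏ l, β (K l) ^ N) := by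
    refine multi_gen (g := (ρ F : End k H) ^ N) (fun v => ?_) (fun l => β (K l) ^ N)
      fun l => gen_pow (hb (K l)) N
    have h2 := h _ hNΔ v
    rw [map_pow, map_pow] at h2
    exact h2
  obtain ⟨y, hy0, hy⟩ := isEig_of_gen hK h1
  obtain ⟨a, ha, haN⟩ := exists_eigenvalue_of_pow (τ F) hN hy0 hy
  exact ⟨a, ha, N, hN, by rw [haN, Finset.prod_pow]⟩

/-- The norm of this eigenvalue. -/
theorem norm_eig (j : k →+* ℂ) {B : Type} (b : B → H) (β : B → k) (F : Γ)
    (hb : ∀ x, b x ∈ Module.End.maxGenEigenspace (ρ F) (β x)) {κ : Type} [Fintype κ]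
    [DecidableEq κ] {φ : MultilinearMap k (fun _ : κ => H) M} (hφ : IsEqv ρ τ φ) (K : κ → B)
    (hK : φ (fun l => b (K l)) ≠ 0) :
    ∃ a, Module.End.HasEigenvalue (τ F) a ∧ ‖j a‖ = ∏ l, ‖j (β (K l))‖ := by
  obtain ⟨a, ha, N, hN, h⟩ := exists_eig b β F hb hφ K hK
  refine ⟨a, ha, ?_⟩
  have h1 : ‖j a‖ ^ N = (∏ l, ‖j (β (K l))‖) ^ N := by
    rw [← norm_pow, ← map_pow, h, map_pow, norm_pow, map_prod, norm_prod]
  exact (pow_left_inj₀ (norm_nonneg _) (prod_nonneg fun _ _ => norm_nonneg _) hN.ne').1 h1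

end eig

section fam

variable {k : Type} [Field k] [CharZero k] [IsAlgClosed k] {I : Type} [Fintype I]
  [DecidableEq I] {V : I → Type} [∀ i, AddCommGroup (V i)] [∀ i, Module k (V i)]
  [∀ i, FiniteDimensional k (V i)] {M : Type} [AddCommGroup M] [Module k M]
  [FiniteDimensional k M] {Γ : Type} [Group Γ] (ρ : ∀ i, Representation k Γ (V i))
  (τ : Representation k Γ M) (χ : Γ →* k) (wt : I → ℕ) (j : k →+* ℂ) (m : ℤ)

theorem single_gen {i : I} {F : Γ} {β : k} {u : V i} (hu : u ∈ Module.End.maxGenEigenspace (ρ i F) β) :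
    LinearMap.single k V i u ∈ Module.End.maxGenEigenspace (sumRep ρ F) β :=
  gen_map (f := (ρ i F : End k (V i))) (f' := (sumRep ρ F : End k (∀ i, V i)))
    (φ := LinearMap.single k V i) (fun x => sumRep_single ρ F i x) hu

/-- The total weight of a nonzero component. -/
theorem wt_sum {F : Γ} (hF : ‖j (χ F)‖ ≠ 1)
    (hV : ∀ i a, Module.End.HasEigenvalue (ρ i F) a → ‖j a‖ ^ 2 = ‖j (χ F)‖ ^ wt i)
    (hM : ∀ a, Module.End.HasEigenvalue (τ F) a → ‖j a‖ ^ 2 = ‖j (χ F)‖ ^ m)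
    {κ : Type} [Fintype κ] [DecidableEq κ] {φ : MultilinearMap k (fun _ : κ => ∀ i, V i) M}
    (hφ : IsEqv (sumRep ρ) τ φ) (c : κ → I) (u : ∀ l, V (c l))
    (hu : φ (fun l => LinearMap.single k V (c l) (u l)) ≠ 0) :
    (∑ l, (wt (c l) : ℤ)) = m := by
  classical
  choose ι _ b β hb using fun i => exists_genBasis (ρ i F : End k (V i))
  obtain ⟨r, hr⟩ : ∃ r : ∀ l, ι (c l),
      φ (fun l => LinearMap.single k V (c l) (b (c l) (r l))) ≠ 0 := by
    by_contra hcon
    push Not at hcon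
    apply hu
    have h1 : φ.compLinearMap (fun l => LinearMap.single k V (c l)) = 0 :=
      Module.Basis.ext_multilinear (fun l => b (c l)) fun r => hcon r
    exact congrFun (congrArg DFunLike.coe h1) u
  obtain ⟨a, ha, h1⟩ := norm_eig (ρ := sumRep ρ) (τ := τ) j
    (fun x : Σ i, ι i => LinearMap.single k V x.1 (b x.1 x.2)) (fun x => β x.1 x.2) F
    (fun x => single_gen ρ (hb x.1 x.2)) hφ (fun l => ⟨c l, r l⟩) hr
  have h2 := hM a ha
  have h3 : ∀ l, ‖j (β (c l) (r l))‖ ^ 2 = ‖j (χ F)‖ ^ wt (c l) := by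
    intro l
    refine hV _ _ ?_
    obtain ⟨y, hy0, hy⟩ := isEig_of_gen ((b (c l)).ne_zero (r l)) (hb (c l) (r l))
    exact Module.End.hasEigenvalue_of_hasEigenvector ⟨Module.End.mem_eigenspace_iff.2 hy, hy0⟩
  have hχ : χ F ≠ 0 := by
    intro h0
    have h4 : χ F * χ F⁻¹ = 1 := by rw [← map_mul, mul_inv_cancel, map_one]
    rw [h0, zero_mul] at h4
    exact zero_ne_one h4
  have hpos : 0 < ‖j (χ F)‖ := norm_pos_iff.2 ((map_ne_zero j).2 hχ)
  rw [h1, ← Finset.prod_pow, Finset.prod_congr rfl fun l _ => h3 l,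
    Finset.prod_pow_eq_pow_sum] at h2
  have h4 : ‖j (χ F)‖ ^ ((∑ l, wt (c l) : ℕ) : ℤ) = ‖j (χ F)‖ ^ m := by
    rw [zpow_natCast]
    exact h2
  have h5 := zpow_right_injective₀ hpos hF h4
  rw [← h5, Nat.cast_sum]

variable {D : ℕ} {i : I} {e h f : End k (V i)} {w : ℕ → V i}

/-- **The operator `h` kills the components of equivariant maps.** -/
theorem h_kills (hp : Prin e h f D w) (hdim : finrank k (V i) = D + 1) {F φ₀ : Γ}
    (hF : ‖j (χ F)‖ ≠ 1)
    (hV : ∀ i a, Module.End.HasEigenvalue (ρ i F) a → ‖j a‖ ^ 2 = ‖j (χ F)‖ ^ wt i)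
    (hM : ∀ a, Module.End.HasEigenvalue (τ F) a → ‖j a‖ ^ 2 = ‖j (χ F)‖ ^ m)
    (hV' : ∀ i', i' ≠ i → ∀ a, Module.End.HasEigenvalue (ρ i' φ₀) a →
      ‖j a‖ ^ 2 = ‖j (χ φ₀)‖ ^ wt i')
    (hM' : ∀ a, Module.End.HasEigenvalue (τ φ₀) a → ‖j a‖ ^ 2 = ‖j (χ φ₀)‖ ^ m)
    {lam : k} {q : ℕ} (hq : 2 ≤ q) (hw : ∀ l, ρ i φ₀ (w l) = (lam * (q : k) ^ l) • w l)
    (hlam : lam ^ 2 * (q : k) ^ D = χ φ₀ ^ wt i)
    {κ : Type} [Fintype κ] [DecidableEq κ] {φ : MultilinearMap k (fun _ : κ => ∀ i, V i) M}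
    (hφ : IsEqv (sumRep ρ) τ φ) (l : M →ₗ[k] k) : Kills (io k i h) (l.compMultilinearMap φ) := by
  classical
  have hχ : χ φ₀ ≠ 0 := by
    intro h0
    have h4 : χ φ₀ * χ φ₀⁻¹ = 1 := by rw [← map_mul, mul_inv_cancel, map_one]
    rw [h0, zero_mul] at h4
    exact zero_ne_one h4
  have hpos : 0 < ‖j (χ φ₀)‖ := norm_pos_iff.2 ((map_ne_zero j).2 hχ)
  have hq0 : (0 : ℝ) < q := Nat.cast_pos.2 (by omega)
  have key : ∀ i', ∃ (ι : Type) (_ : Fintype ι) (b : Basis ι k (V i')) (β : ι → k) (n : ι → ℤ),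
      (∀ x, b x ∈ Module.End.maxGenEigenspace (ρ i' φ₀) (β x)) ∧
      (∀ x, ‖j (β x)‖ ^ 2 = ‖j (χ φ₀)‖ ^ wt i' * (q : ℝ) ^ n x) ∧
      ∀ x, io k i h (LinearMap.single k V i' (b x)) =
        ((n x : ℤ) : k) • LinearMap.single k V i' (b x) := by
    intro i'
    by_cases hi : i' = i
    · subst hi
      obtain ⟨b, hb⟩ := hp.exists_basis hdim
      refine ⟨Fin (D + 1), inferInstance, b, fun x => lam * (q : k) ^ (x : ℕ),
        fun x => 2 * (x : ℕ) - D, fun x => ?_, fun x => ?_, fun x => ?_⟩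
      · refine mem_gen.2 ⟨1, ?_⟩
        rw [pow_one, LinearMap.sub_apply, hb, hw, Module.algebraMap_end_apply, sub_self]
      · have h1 : ‖j (χ φ₀)‖ ^ wt i' = ‖j lam‖ ^ 2 * (q : ℝ) ^ D := by
          rw [← norm_pow, ← map_pow, ← hlam, map_mul, map_pow, map_pow, norm_mul, norm_pow,
            norm_pow, map_natCast, Complex.norm_natCast]
        rw [h1, map_mul, map_pow, norm_mul, norm_pow, map_natCast, Complex.norm_natCast, mul_pow,
          mul_assoc]
        congr 1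
        rw [← zpow_natCast (q : ℝ) D, ← zpow_add₀ hq0.ne', ← pow_mul, ← zpow_natCast]
        congr 1
        push_cast
        ring
      · rw [io_apply]
        have h1 : (LinearMap.single k V i' (b x)) i' = b x := Pi.single_eq_same _ _
        rw [h1, hb, hp.h_w, map_smul]
        congr 1
        push_cast
        ring
    · obtain ⟨ι, hι, b, β, hb⟩ := exists_genBasis (ρ i' φ₀ : End k (V i'))
      refine ⟨ι, hι, b, β, fun _ => 0, hb, fun x => ?_, fun x => ?_⟩
      · rw [zpow_zero, mul_one]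
        refine hV' i' hi _ ?_
        obtain ⟨y, hy0, hy⟩ := isEig_of_gen (b.ne_zero x) (hb x)
        exact Module.End.hasEigenvalue_of_hasEigenvector
          ⟨Module.End.mem_eigenspace_iff.2 hy, hy0⟩
      · have h1 : (LinearMap.single k V i' (b x)) i = 0 := Pi.single_eq_of_ne (Ne.symm hi) _
        rw [io_apply, h1, map_zero, map_zero, Int.cast_zero, zero_smul]
  choose ι _ b β n hb hβ hn using key
  have hE : ∀ x : Σ i, ι i, (Pi.basis b) x = LinearMap.single k V x.1 (b x.1 x.2) := fun x => by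
    rw [Pi.basis_apply]
    rfl
  refine kills_of_basis (Pi.basis b) _ _ fun K => ?_
  have h1 : ∀ s, (l.compMultilinearMap φ) (Function.update (fun s => (Pi.basis b) (K s)) s
      (io k i h ((Pi.basis b) (K s)))) =
      ((n (K s).1 (K s).2 : ℤ) : k) * l (φ (fun s => (Pi.basis b) (K s))) := by
    intro s
    have h2 : io k i h ((Pi.basis b) (K s)) =
        ((n (K s).1 (K s).2 : ℤ) : k) • (Pi.basis b) (K s) := by
      rw [hE]
      exact hn _ _
    rw [h2, MultilinearMap.map_update_smul, smul_eq_mul,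
      Function.update_eq_self s (fun s => (Pi.basis b) (K s))]
    rfl
  rw [Finset.sum_congr rfl fun s _ => h1 s, ← Finset.sum_mul]
  by_cases h0 : φ (fun s => (Pi.basis b) (K s)) = 0
  · rw [h0, map_zero, mul_zero]
  · have h2 : φ (fun s => LinearMap.single k V (K s).1 (b (K s).1 (K s).2)) ≠ 0 := by
      simpa only [hE] using h0
    have h3 := wt_sum ρ τ χ wt j m hF hV hM hφ (fun s => (K s).1)
      (fun s => b (K s).1 (K s).2) h2
    obtain ⟨a, ha, h4⟩ := norm_eig (ρ := sumRep ρ) (τ := τ) j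
      (fun x : Σ i, ι i => LinearMap.single k V x.1 (b x.1 x.2)) (fun x => β x.1 x.2) φ₀
      (fun x => single_gen ρ (hb x.1 x.2)) hφ K h2
    have h5 := hM' a ha
    rw [h4, ← Finset.prod_pow, Finset.prod_congr rfl fun s _ => hβ (K s).1 (K s).2,
      Finset.prod_mul_distrib, Finset.prod_pow_eq_pow_sum, ← h3, ← Nat.cast_sum, zpow_natCast] at h5
    have h6 : ∏ s, (q : ℝ) ^ n (K s).1 (K s).2 = 1 :=
      mul_left_cancel₀ (pow_ne_zero _ hpos.ne') (h5.trans (mul_one _).symm)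
    have h7 : (q : ℝ) ^ (∑ s, n (K s).1 (K s).2) = 1 := by
      rw [← h6]
      have h8 : ∀ t : Finset κ, (q : ℝ) ^ (∑ s ∈ t, n (K s).1 (K s).2) =
          ∏ s ∈ t, (q : ℝ) ^ n (K s).1 (K s).2 := by
        intro t
        induction t using Finset.induction_on with
        | empty => rw [Finset.sum_empty, Finset.prod_empty, zpow_zero]
        | insert s t hs ih => rw [Finset.sum_insert hs, Finset.prod_insert hs, zpow_add₀ hq0.ne', ih]
      exact h8 _
    have h8 : ∑ s, n (K s).1 (K s).2 = 0 := by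
      refine zpow_right_injective₀ hq0 ?_ (h7.trans (zpow_zero _).symm)
      have h9 : (2 : ℝ) ≤ q := by exact_mod_cast hq
      linarith
    have h9 : ∑ s, ((n (K s).1 (K s).2 : ℤ) : k) = 0 := by
      rw [← Int.cast_sum, h8, Int.cast_zero]
    rw [h9, zero_mul]

end fam

end Pool.Agent.Helper2.MU
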