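import Pool.Graph.R_pool_sql_team_seeded_843ab51a.V1141.SO.Defs

/-!
# Places of maximally unipotent monodromy: definitions
-/

set_option autoImplicit false

namespace Pool.Agent.Helper2.MU

open Module Pool.Agent.V1141.SO

variable {k : Type} [Field k] {Γ : Type} [Group Γ]

/-- The element `F` of `Γ` acts on `V` with eigenvalues which are pure of weight `m`:
`|a| ^ 2 = |χ F| ^ m`, where the absolute values are taken with the embedding `j` of `k` into the
field of complex numbers. -/
def IsPure (j : k →+* ℂ) (χ : Γ →* k) (F : Γ) {V : Type} [AddCommGroup V] [Module k V]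
    (ρ : Representation k Γ V) (m : ℤ) : Prop :=
  ∀ a : k, Module.End.HasEigenvalue (ρ F) a → ‖j a‖ ^ 2 = ‖j (χ F)‖ ^ m

variable {χ : Γ →* k}

/-- `γ` acts on `V` by a unipotent operator with only one Jordan block. -/
def OneJordanBlock (P : FormPiece k χ) (γ : Γ) : Prop :=
  IsNilpotent (P.ρ γ - 1) ∧ (P.ρ γ - 1) ^ (finrank k P.V - 1) ≠ 0

/-- The relation `φ γ = γ ^ q φ` of the tame inertia holds on `V`. -/
def TameRelation (P : FormPiece k χ) (γ φ : Γ) (q : ℕ) : Prop :=
  P.ρ φ * P.ρ γ = P.ρ γ ^ q * P.ρ φ

variable {I : Type}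

/-- `V i` has a place of maximally unipotent monodromy where `M` and the other `V i'` have good
reduction: there are elements `γ` (a generator of the tame inertia group) and `φ` (a Frobenius element
of the place) such that `γ` acts on `V i` by a unipotent operator with only one Jordan block, and
trivially on `M`, on the other `V i'` and by `χ`; the relation of the tame inertia group holds on
`V i` with some `q ≥ 2`; and `φ` is pure of weight `m` on `M` and of weight `w i'` on the other
`V i'`. -/
def MaximallyUnipotentPlace (P : I → FormPiece k χ) {M : Type} [AddCommGroup M] [Module k M]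
    (τ : Representation k Γ M) (j : k →+* ℂ) (m : ℤ) (i : I) : Prop :=
  ∃ (γ φ : Γ) (q : ℕ), OneJordanBlock (P i) γ ∧ 2 ≤ q ∧ TameRelation (P i) γ φ q ∧
    (χ γ = 1 ∧ τ γ = 1 ∧ ∀ i', i' ≠ i → (P i').ρ γ = 1) ∧
    IsPure j χ φ τ m ∧ ∀ i', i' ≠ i → IsPure j χ φ (P i').ρ (P i').w

/-- The eigenvalues of some element `F` of `Γ` on `V`, with their multiplicities, are not a geometric
progression `c, c a, c a ^ 2, …`. -/
def NotGeometric (P : FormPiece k χ) : Prop :=
  ∃ F : Γ, ∀ c a : k, (P.ρ F).charpoly ≠
    ∏ l ∈ Finset.range (finrank k P.V), (Polynomial.X - Polynomial.C (c * a ^ l))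

/-- The condition on one `V`: if the form is symmetric, then `dim V ≤ 3`, or `dim V ≠ 7` and the
eigenvalues of some element are not a geometric progression; if the form is alternating, then
`dim V ≤ 2`, or the eigenvalues of some element are not a geometric progression. -/
def General (P : FormPiece k χ) : Prop :=
  (P.sgn = 1 ∧ (finrank k P.V ≤ 3 ∨ (finrank k P.V ≠ 7 ∧ NotGeometric P))) ∨
    (P.sgn = -1 ∧ (finrank k P.V ≤ 2 ∨ NotGeometric P))

end Pool.Agent.Helper2.MU
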