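import Pool.Agent.Helper2.MU.Block
import Pool.Graph.R_pool_sql_team_seeded_843ab51a.V1141.SO.Iff

/-!
# From the Lie algebras to the Tate classes

`main_of_tt` is the second half of the proof of `Pool.Agent.V1141.SO.main`, with the conclusion of
`Pool.Agent.V1141.SO.tt_mem` as a hypothesis.
-/

set_option autoImplicit false
set_option linter.unusedSectionVars false

namespace Pool.Agent.Helper2.MU

open Module Pool.Agent.V1141.WT Pool.Agent.V1141.OF Pool.Agent.V1141.SO
open Pool.Agent.Y137.MV (IsEqv)

noncomputable section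

variable {k : Type} [Field k] [CharZero k] {Γ : Type} [Group Γ] {χ : Γ →* k} {I : Type}
  [Fintype I] [DecidableEq I] (P : I → FormPiece k χ)

theorem main_of_tt [IsAlgClosed k] {M : Type} [AddCommGroup M] [Module k M]
    [FiniteDimensional k M] (τ : Representation k Γ M) {d : I → ℕ}
    (b : ∀ i, Basis (Fin (d i)) k (P i).V) (inv : ∀ i, Fin (d i) → Fin (d i))
    (J : ∀ i, Fin (d i) → k) (hJ : ∀ i a, J i a ≠ 0) (hinv : ∀ i a, inv i (inv i a) = a)
    (hωb : ∀ i x y, (P i).ω (b i x) (b i y) = if y = inv i x then J i x else 0)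
    (hTT : ∀ i a c, TT ((P i).ω) ((P i).sgn : k) (b i a) (b i c) ∈
      lieO (V := fun i => (P i).V) (fun i => (P i).ρ) τ (fun i => (P i).ω) i)
    {N : ℕ} (f : MultilinearMap k (fun _ : Fin N => Sum P) M) (hf : IsTateClass (act P) τ f) :
    f ∈ Submodule.span k {h | IsProductTimes P τ h} := by
  classical
  have hsgn : ∀ i, (P i).sgn = 1 ∨ (P i).sgn = -1 := fun i =>
    (P i).sgn_eq.imp (fun h => h.1) id
  let ω : ∀ i, (P i).V →ₗ[k] (P i).V →ₗ[k] k := fun i => (P i).ω
  let E : Basis (Σ i, Fin (d i)) k (Sum P) := Pi.basis b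
  let Q : Matrix (Σ i, Fin (d i)) (Σ i, Fin (d i)) k := fun x y => sumForm ω (E x) (E y)
  have hQb : ∀ x y : Σ i, Fin (d i), x.1 ≠ y.1 → Q x y = 0 := by
    intro x y h
    change sumForm ω ((Pi.basis b) x) ((Pi.basis b) y) = 0
    rw [sumForm_E b ω rfl, E_ne b (Ne.symm h), map_zero]
  have hQsame : ∀ i a c, Q ⟨i, a⟩ ⟨i, c⟩ = ω i (b i a) (b i c) := by
    intro i a c
    change sumForm ω ((Pi.basis b) ⟨i, a⟩) ((Pi.basis b) ⟨i, c⟩) = _
    rw [sumForm_E b ω (i := i) rfl, E_same, E_same]
  have hQs : ∀ x y : Σ i, Fin (d i), Q x y = (((P x.1).sgn : ℤ) : k) * Q y x := by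
    rintro ⟨i, a⟩ ⟨i', c⟩
    by_cases h : i = i'
    · subst h
      rw [hQsame, hQsame]
      exact (P i).sym _ _
    · rw [hQb _ _ h, hQb _ _ (Ne.symm h), mul_zero]
  let R : Matrix (Σ i, Fin (d i)) (Σ i, Fin (d i)) k := fun x y =>
    if x = ⟨y.1, inv y.1 y.2⟩ then (J y.1 y.2)⁻¹ else 0
  have hQR : Q * R = 1 := by
    ext x z
    rw [Matrix.mul_apply, Finset.sum_eq_single (⟨z.1, inv z.1 z.2⟩ : Σ i, Fin (d i))]
    · change Q x _ * (if _ then _ else 0) = _
      rw [if_pos rfl, Matrix.one_apply]
      by_cases h : x = z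
      · subst h
        rw [if_pos rfl]
        obtain ⟨i, a⟩ := x
        rw [hQsame]
        change (P i).ω (b i a) (b i (inv i a)) * (J i a)⁻¹ = 1
        rw [hωb, if_pos rfl, mul_inv_cancel₀ (hJ _ _)]
      · rw [if_neg h]
        have h1 : Q x ⟨z.1, inv z.1 z.2⟩ = 0 := by
          obtain ⟨i, a⟩ := x
          obtain ⟨i', c⟩ := z
          by_cases hi : i = i'
          · subst hi
            rw [hQsame]
            change (P i).ω (b i a) (b i (inv i c)) = 0
            rw [hωb, if_neg]
            intro h2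
            apply h
            have h3 : inv i (inv i c) = inv i (inv i a) := congrArg (inv i) h2
            rw [hinv, hinv] at h3
            rw [h3]
          · exact hQb _ _ hi
        rw [h1, zero_mul]
    · intro y _ hy
      change Q x y * (if _ then _ else 0) = 0
      rw [if_neg hy, mul_zero]
    · intro h
      exact absurd (Finset.mem_univ _) h
  have hf' : IsEqv (sumRep fun i => (P i).ρ) τ f := hf
  -- coordinates
  let C : MultilinearMap k (fun _ : Fin N => Sum P) k →ₗ[k] ((Fin N → Σ i, Fin (d i)) → k) :=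
    { toFun := fun ψ K => ψ (fun l => E (K l))
      map_add' := fun _ _ => rfl
      map_smul' := fun _ _ => rfl }
  have hC : ∀ ψ K, C ψ K = ψ (fun l => E (K l)) := fun ψ K => rfl
  have hCinj : Function.Injective C := by
    intro ψ ψ' h
    refine Basis.ext_multilinear (fun _ => E) fun K => ?_
    exact congrFun h K
  -- the components
  have key : ∀ c : Fin N → I, patt (V := fun i => (P i).V) c f ∈
      Submodule.span k {h | IsProductTimes P τ h} := by
    intro c
    set φ : MultilinearMap k (fun _ : Fin N => Sum P) M := patt (V := fun i => (P i).V) c f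
      with hφ
    have hφe : IsEqv (sumRep fun i => (P i).ρ) τ φ := patt_eqv _ τ c hf'
    let c0 : ℤ := (∑ l, ((P (c l)).w : ℤ)) / 2
    let PP : Set (MultilinearMap k (fun _ : Fin N => Sum P) k) :=
      {ψ | IsProductOfForms P ψ ∧ IsTate (act P) χ c0 ψ}
    have hcomp : ∀ l : M →ₗ[k] k, l.compMultilinearMap φ ∈ Submodule.span k PP := by
      intro l
      have hsup : Pool.Agent.TH125.Nod.Sup (Sigma.fst : (Σ i, Fin (d i)) → I) c
          (C (l.compMultilinearMap φ)) := by
        intro K hK
        push Not at hK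
        obtain ⟨j, hj⟩ := hK
        rw [hC]
        change l (f (fun l' => LinearMap.single k (fun i => (P i).V) (c l')
          ((Pi.basis b) (K l') (c l')))) = 0
        rw [f.map_coord_zero j, map_zero]
        rw [E_ne b hj, map_zero]
      have h1 := fftD (κ := (Sigma.fst : (Σ i, Fin (d i)) → I)) (Q := Q) (R := R)
        (s := fun i => (P i).sgn) hsgn hQb hQs hQR N (Fin N) c (C (l.compMultilinearMap φ))
        (Fintype.card_fin N) hsup
        (inv_coord (V := fun i => (P i).V) (fun i => (P i).ρ) τ (fun i => (P i).sgn) ω b hTT hφe l)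
      have h2 : GenD (Sigma.fst : (Σ i, Fin (d i)) → I) Q (fun i => (P i).sgn) c ≤
          (Submodule.span k PP).map C := by
        unfold GenD
        rw [Submodule.span_le]
        rintro _ ⟨A, _, m, p, ψ, hψ, rfl⟩
        choose Ψ hΨ1 hΨ2 hΨ3 using fun a => factor P b (hψ a)
        choose ca hca1 hca2 using hΨ2
        let tot : MultilinearMap k (fun _ : Fin N => Sum P) k := (sigmaProd Ψ).domDomCongr p
        have htot : ∀ x, tot x = ∏ a, Ψ a (fun i => x (p ⟨a, i⟩)) := fun x => rfl
        have hsum : ∑ a, ca a = c0 := by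
          have h3 : 2 * ∑ a, ca a = ∑ l, ((P (c l)).w : ℤ) := by
            rw [Finset.mul_sum, Finset.sum_congr rfl fun a _ => hca2 a, ← Equiv.sum_comp p,
              Fintype.sum_sigma]
          change _ = (∑ l, ((P (c l)).w : ℤ)) / 2
          rw [← h3]
          omega
        refine ⟨tot, Submodule.subset_span ⟨⟨A, inferInstance, m, p, Ψ, hΨ1, htot⟩, ?_⟩, ?_⟩
        · rw [← hsum]
          exact prod_tate P p ca Ψ hca1 tot htot
        · funext K
          rw [hC, htot]
          exact Finset.prod_congr rfl fun a _ => hΨ3 a _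
      obtain ⟨ψ, hψ, hψ'⟩ := h2 h1
      rw [← hCinj hψ']
      exact hψ
    have h1 := final_abs τ (fun _ : Fin N => sumRep fun i => (P i).ρ) (fun s => χ s ^ c0) PP
      (fun g hg => hg.2) φ hφe hcomp
    refine Submodule.span_mono ?_ h1
    rintro h ⟨g, hg, u, hu, hh⟩
    exact ⟨g, u, c0, hg.1, hg.2, hu, hh⟩
  rw [sum_patt (V := fun i => (P i).V) f]
  exact Submodule.sum_mem _ fun c _ => key c


end

end Pool.Agent.Helper2.MU
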