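import Pool.Agent.Helper2.MU.Rev

/-!
# Elements of the Lie algebra given by functions
-/

set_option autoImplicit false
set_option linter.unusedSectionVars false

namespace Pool.Agent.Helper2.MU

open Module Finset Pool.Agent.Y126.JB Pool.Agent.Y126.MU

section fn

variable {K : Type*} [Field K] [CharZero K]

/-- the coefficients of `f` -/
def kap (K : Type*) [Field K] (D i : ℕ) : K := ((i : K) + 1) * ((D : K) - i)

/-- the indicator function of `j`, `D - 1 - j` -/
def del (K : Type*) [Field K] (D j i : ℕ) : K :=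
  (if i = j then 1 else 0) + (if i + j + 1 = D then 1 else 0)

/-- the function `[D - m] - [m]` -/
def epp (K : Type*) [Field K] (D m i : ℕ) : K :=
  (if i + m = D then 1 else 0) - (if i = m then 1 else 0)

theorem del_sq {D j : ℕ} (h : 2 * j + 1 ≠ D) (i : ℕ) : del K D j i * del K D j i = del K D j i := by
  unfold del
  split_ifs with h1 h2
  · omega
  all_goals norm_num

theorem del_mul {D j l : ℕ} (h : j ≠ l) (h' : j + l + 1 ≠ D) (i : ℕ) :
    del K D j i * del K D l i = 0 := by
  unfold del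
  by_cases h1 : i = j
  · rw [if_neg (show ¬ i = l by omega), if_neg (show ¬ i + l + 1 = D by omega), add_zero, mul_zero]
  · by_cases h2 : i + j + 1 = D
    · rw [if_neg (show ¬ i = l by omega), if_neg (show ¬ i + l + 1 = D by omega), add_zero, mul_zero]
    · rw [if_neg h1, if_neg h2, add_zero, zero_mul]

theorem del_kap (D j i : ℕ) : del K D j i * kap K D i = kap K D j * del K D j i := by
  unfold del kap
  by_cases h1 : i = j
  · subst h1
    ring
  · rw [if_neg h1]
    by_cases h2 : i + j + 1 = D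
    · rw [if_pos h2, ← h2]
      push_cast
      ring
    · rw [if_neg h2]
      ring

theorem kap_ne {D j : ℕ} (h : j < D) : kap K D j ≠ 0 := by
  unfold kap
  refine mul_ne_zero (Nat.cast_add_one_ne_zero j) ?_
  rw [sub_ne_zero]
  intro h4
  have h5 : D = j := Nat.cast_injective h4
  omega

theorem diff_del {D j i : ℕ} (hi : i ≤ D) (hj : j < D) :
    (if i = 0 then 0 else del K D j (i - 1)) - del K D j i = epp K D j i - epp K D (j + 1) i := by
  unfold del epp
  rcases Nat.eq_zero_or_pos i with h0 | h0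
  · subst h0
    rw [if_pos rfl, if_neg (show ¬ 0 + j = D by omega), if_neg (show ¬ 0 = j + 1 by omega),
      show 0 + (j + 1) = 0 + j + 1 by omega]
    ring
  · rw [if_neg (show ¬ i = 0 by omega)]
    have h1 : (i - 1 = j) = (i = j + 1) := by
      apply propext
      omega
    have h2 : (i - 1 + j + 1 = D) = (i + j = D) := by
      apply propext
      omega
    have h3 : (i + (j + 1) = D) = (i + j + 1 = D) := by
      apply propext
      omega
    simp only [h1, h2, h3]
    ring

theorem diff_epp (D m i : ℕ) :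
    epp K D m (i + 1) - epp K D m i = del K D m i -
      ((if i + 1 = m then 1 else 0) + (if i + m = D then 1 else 0)) := by
  unfold del epp
  have h1 : (i + 1 + m = D) = (i + m + 1 = D) := by
    apply propext
    omega
  simp only [h1]
  ring

theorem diff_epp0 {D i : ℕ} (hi : i < D) :
    epp K D 0 (i + 1) - epp K D 0 i = del K D 0 i := by
  rw [diff_epp, if_neg (show ¬ i + 1 = 0 by omega), if_neg (show ¬ i + 0 = D by omega)]
  ring

theorem diff_epps (D m i : ℕ) :
    epp K D (m + 1) (i + 1) - epp K D (m + 1) i = del K D (m + 1) i - del K D m i := by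
  rw [diff_epp]
  congr 1
  unfold del
  have h1 : (i + 1 = m + 1) = (i = m) := by
    apply propext
    omega
  have h2 : (i + (m + 1) = D) = (i + m + 1 = D) := by
    apply propext
    omega
  simp only [h1, h2]

end fn

section

variable {K : Type*} [Field K] [CharZero K] {T : Type*} [AddCommGroup T] [Module K T]
  (D : ℕ) (w : ℕ → T) (L : Submodule K (End K T))

/-- the diagonal elements -/
def SD : Submodule K (ℕ → K) where
  carrier := {a | ∃ X ∈ L, ∀ i, i ≤ D → X (w i) = a i • w i}
  zero_mem' := ⟨0, L.zero_mem, fun i _ => by rw [LinearMap.zero_apply, Pi.zero_apply, zero_smul]⟩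
  add_mem' := by
    rintro a b ⟨X, hX, h1⟩ ⟨Y, hY, h2⟩
    exact ⟨X + Y, L.add_mem hX hY, fun i hi => by
      rw [LinearMap.add_apply, h1 i hi, h2 i hi, Pi.add_apply, add_smul]⟩
  smul_mem' := by
    rintro c a ⟨X, hX, h1⟩
    exact ⟨c • X, L.smul_mem c hX, fun i hi => by
      rw [LinearMap.smul_apply, h1 i hi, Pi.smul_apply, smul_smul, smul_eq_mul]⟩

/-- the raising elements -/
def SR : Submodule K (ℕ → K) where
  carrier := {a | ∃ X ∈ L, ∀ i, i ≤ D → X (w i) = a i • w (i + 1)}
  zero_mem' := ⟨0, L.zero_mem, fun i _ => by rw [LinearMap.zero_apply, Pi.zero_apply, zero_smul]⟩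
  add_mem' := by
    rintro a b ⟨X, hX, h1⟩ ⟨Y, hY, h2⟩
    exact ⟨X + Y, L.add_mem hX hY, fun i hi => by
      rw [LinearMap.add_apply, h1 i hi, h2 i hi, Pi.add_apply, add_smul]⟩
  smul_mem' := by
    rintro c a ⟨X, hX, h1⟩
    exact ⟨c • X, L.smul_mem c hX, fun i hi => by
      rw [LinearMap.smul_apply, h1 i hi, Pi.smul_apply, smul_smul, smul_eq_mul]⟩

/-- the lowering elements -/
def SF : Submodule K (ℕ → K) where
  carrier := {a | ∃ X ∈ L, X (w 0) = 0 ∧ ∀ i, i < D → X (w (i + 1)) = (a i * kap K D i) • w i}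
  zero_mem' := ⟨0, L.zero_mem, rfl, fun i _ => by
    rw [LinearMap.zero_apply, Pi.zero_apply, zero_mul, zero_smul]⟩
  add_mem' := by
    rintro a b ⟨X, hX, h0, h1⟩ ⟨Y, hY, h0', h2⟩
    exact ⟨X + Y, L.add_mem hX hY, by rw [LinearMap.add_apply, h0, h0', add_zero], fun i hi => by
      rw [LinearMap.add_apply, h1 i hi, h2 i hi, Pi.add_apply, add_mul, add_smul]⟩
  smul_mem' := by
    rintro c a ⟨X, hX, h0, h1⟩
    exact ⟨c • X, L.smul_mem c hX, by rw [LinearMap.smul_apply, h0, smul_zero], fun i hi => by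
      rw [LinearMap.smul_apply, h1 i hi, Pi.smul_apply, smul_smul, smul_eq_mul, mul_assoc]⟩

variable {D w L} {e h f : End K T}

theorem sd_congr {a b : ℕ → K} (ha : a ∈ SD D w L) (h : ∀ i, i ≤ D → a i = b i) :
    b ∈ SD D w L := by
  obtain ⟨X, hX, h1⟩ := ha
  exact ⟨X, hX, fun i hi => by rw [← h i hi]; exact h1 i hi⟩

theorem sf_congr {a b : ℕ → K} (ha : a ∈ SF D w L) (h : ∀ i, i < D → a i = b i) :
    b ∈ SF D w L := by
  obtain ⟨X, hX, h0, h1⟩ := ha
  exact ⟨X, hX, h0, fun i hi => by rw [← h i hi]; exact h1 i hi⟩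

variable (hp : Prin e h f D w)

include hp in
theorem sr_congr {a b : ℕ → K} (ha : a ∈ SR D w L) (h : ∀ i, i < D → a i = b i) :
    b ∈ SR D w L := by
  obtain ⟨X, hX, h1⟩ := ha
  refine ⟨X, hX, fun i hi => ?_⟩
  rcases Nat.eq_or_lt_of_le hi with h2 | h2
  · rw [h1 i hi, h2, hp.top, smul_zero, smul_zero]
  · rw [← h i h2]
    exact h1 i hi

include hp in
theorem rf_congr {a b : ℕ → K} (ha : a ∈ SR D w L ⊓ SF D w L) (h : ∀ i, i < D → a i = b i) :
    b ∈ SR D w L ⊓ SF D w L :=
  ⟨sr_congr hp ha.1 h, sf_congr ha.2 h⟩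

variable (hbr : ∀ Y ∈ L, ∀ Z ∈ L, Y * Z - Z * Y ∈ L)

include hp hbr in
theorem sd_rf {a b : ℕ → K} (ha : a ∈ SD D w L) (hb : b ∈ SR D w L ⊓ SF D w L) :
    (fun i => (a (i + 1) - a i) * b i) ∈ SR D w L ⊓ SF D w L := by
  obtain ⟨X, hX, h1⟩ := ha
  obtain ⟨⟨Y, hY, h2⟩, Z, hZ, h3, h4⟩ := hb
  refine ⟨⟨X * Y - Y * X, hbr X hX Y hY, fun i hi => ?_⟩, Z * X - X * Z, hbr Z hZ X hX, ?_,
    fun i hi => ?_⟩
  · rw [LinearMap.sub_apply, Module.End.mul_apply, Module.End.mul_apply, h2 i hi, h1 i hi,
      map_smul, map_smul, h2 i hi]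
    rcases Nat.eq_or_lt_of_le hi with h5 | h5
    · rw [h5, hp.top, map_zero]
      simp only [smul_zero, sub_zero]
    · rw [h1 (i + 1) h5]
      module
  · rw [LinearMap.sub_apply, Module.End.mul_apply, Module.End.mul_apply, h1 0 (Nat.zero_le D),
      map_smul, h3, map_zero, smul_zero, sub_zero]
  · rw [LinearMap.sub_apply, Module.End.mul_apply, Module.End.mul_apply, h1 (i + 1) hi, map_smul,
      h4 i hi, map_smul, h1 i hi.le]
    module

include hp hbr in
theorem sr_sf {b c : ℕ → K} (hb : b ∈ SR D w L) (hc : c ∈ SF D w L) :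
    (fun i => (if i = 0 then 0 else b (i - 1) * c (i - 1) * kap K D (i - 1)) -
      b i * c i * kap K D i) ∈ SD D w L := by
  obtain ⟨X, hX, h1⟩ := hb
  obtain ⟨Y, hY, h2, h3⟩ := hc
  refine ⟨X * Y - Y * X, hbr X hX Y hY, fun i hi => ?_⟩
  have h4 : Y (X (w i)) = (b i * c i * kap K D i) • w i := by
    rcases Nat.eq_or_lt_of_le hi with h5 | h5
    · have h6 : kap K D D = 0 := by
        unfold kap
        rw [sub_self, mul_zero]
      rw [h1 i hi, h5, hp.top, smul_zero, map_zero, h6, mul_zero, zero_smul]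
    · rw [h1 i hi, map_smul, h3 i h5, smul_smul]
      congr 1
      ring
  rw [LinearMap.sub_apply, Module.End.mul_apply, Module.End.mul_apply, h4, sub_smul]
  congr 1
  cases i with
  | zero => rw [h2, map_zero, if_pos rfl, zero_smul]
  | succ i =>
    rw [h3 i (by omega), map_smul, h1 i (by omega), if_neg (Nat.succ_ne_zero i), smul_smul,
      Nat.add_sub_cancel]
    congr 1
    ring

include hp in
theorem one_rf (heL : e ∈ L) (hfL : f ∈ L) : (fun _ => (1 : K)) ∈ SR D w L ⊓ SF D w L :=
  ⟨⟨e, heL, fun i _ => by rw [hp.e_w, one_smul]⟩, f, hfL, hp.f_zero, fun i _ => by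
    rw [hp.f_w, one_mul]
    rfl⟩

include hp hbr in
theorem del_step {j : ℕ} (hj : j < D) (hj2 : 2 * j + 1 ≠ D)
    (h : del K D j ∈ SR D w L ⊓ SF D w L) : epp K D j - epp K D (j + 1) ∈ SD D w L := by
  have h1 := sr_sf hp hbr h.1 h.2
  have h2 : kap K D j • (epp K D j - epp K D (j + 1)) ∈ SD D w L := by
    refine sd_congr h1 fun i hi => ?_
    rw [Pi.smul_apply, Pi.sub_apply, smul_eq_mul, ← diff_del hi hj]
    have s1 := del_sq (K := K) hj2 i
    have s2 := del_kap (K := K) D j i
    have s3 := del_sq (K := K) hj2 (i - 1)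
    have s4 := del_kap (K := K) D j (i - 1)
    by_cases h3 : i = 0
    · rw [if_pos h3, if_pos h3]
      linear_combination (-kap K D i) * s1 - s2
    · rw [if_neg h3, if_neg h3]
      linear_combination (-kap K D i) * s1 - s2 + kap K D (i - 1) * s3 + s4
  exact (Submodule.smul_mem_iff _ (kap_ne hj)).1 h2

include hp hbr in
/-- From `epp 0` to all diagonal elements. -/
theorem all_epp (heL : e ∈ L) (hfL : f ∈ L) (h0 : epp K D 0 ∈ SD D w L) (m : ℕ)
    (hm : 2 * m < D) : epp K D m ∈ SD D w L ∧ del K D m ∈ SR D w L ⊓ SF D w L := by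
  induction m with
  | zero =>
    refine ⟨h0, rf_congr hp (sd_rf hp hbr h0 (one_rf hp heL hfL)) fun i hi => ?_⟩
    rw [diff_epp0 hi, mul_one]
  | succ m ih =>
    obtain ⟨h1, h2⟩ := ih (by omega)
    have h3 := del_step hp hbr (by omega) (by omega) h2
    have h4 : epp K D (m + 1) ∈ SD D w L := by
      have h5 := Submodule.sub_mem _ h1 h3
      rwa [sub_sub_cancel] at h5
    refine ⟨h4, ?_⟩
    have h5 := Submodule.add_mem _ (sd_rf hp hbr h4 (one_rf hp heL hfL)) h2
    refine rf_congr hp h5 fun i _ => ?_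
    rw [Pi.add_apply, diff_epps]
    ring

include hp hbr in
/-- The first diagonal element, for `D = 4`. -/
theorem epp_zero_four (hD : D = 4) (heL : e ∈ L) (hfL : f ∈ L)
    (h01 : epp K D 0 + epp K D 1 ∈ SD D w L) : epp K D 0 ∈ SD D w L := by
  have h1 : del K D 1 ∈ SR D w L ⊓ SF D w L := by
    refine rf_congr hp (sd_rf hp hbr h01 (one_rf hp heL hfL)) fun i hi => ?_
    rw [Pi.add_apply, Pi.add_apply]
    have h2 := diff_epp0 (K := K) hi
    have h3 := diff_epps (K := K) D 0 i
    rw [zero_add] at h3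
    linear_combination h2 + h3
  have h2 := del_step hp hbr (by omega) (by omega) h1
  have h3 : (2 : K) • epp K D 1 ∈ SD D w L := by
    refine sd_congr (Submodule.smul_mem _ (2 : K) h2) fun i _ => ?_
    rw [Pi.smul_apply, Pi.smul_apply, Pi.sub_apply]
    have h4 : epp K D (1 + 1) i = 0 := by
      unfold epp
      have h5 : (i + (1 + 1) = D) = (i = 1 + 1) := by
        apply propext
        omega
      simp only [h5, sub_self]
    rw [h4, sub_zero]
  have h4 := Submodule.sub_mem _ h01 ((Submodule.smul_mem_iff _ two_ne_zero).1 h3)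
  rwa [add_sub_cancel_right] at h4

include hp hbr in
/-- The first diagonal element, for `8 ≤ D`. -/
theorem epp_zero_eight (hD : 8 ≤ D) (heL : e ∈ L) (hfL : f ∈ L)
    (h01 : epp K D 0 + epp K D 1 ∈ SD D w L) : epp K D 0 ∈ SD D w L := by
  have h1 : del K D 1 ∈ SR D w L ⊓ SF D w L := by
    refine rf_congr hp (sd_rf hp hbr h01 (one_rf hp heL hfL)) fun i hi => ?_
    rw [Pi.add_apply, Pi.add_apply]
    have h2 := diff_epp0 (K := K) hi
    have h3 := diff_epps (K := K) D 0 i
    rw [zero_add] at h3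
    linear_combination h2 + h3
  have h2 := del_step hp hbr (by omega) (by omega) h1
  -- the sum `del 0 + del 2`
  have h3 : del K D 0 + del K D 2 ∈ SR D w L ⊓ SF D w L := by
    have h4 := Submodule.sub_mem _ (Submodule.smul_mem _ (2 : K) h1)
      (sd_rf hp hbr h2 (one_rf hp heL hfL))
    refine rf_congr hp h4 fun i hi => ?_
    have h5 := diff_epps (K := K) D 0 i
    have h6 := diff_epps (K := K) D 1 i
    rw [zero_add] at h5
    rw [show (1 : ℕ) + 1 = 2 from rfl] at h6
    rw [Pi.sub_apply, Pi.smul_apply, Pi.add_apply, smul_eq_mul, Pi.sub_apply, Pi.sub_apply]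
    linear_combination h6 - h5
  have h4 := sr_sf hp hbr h3.1 h3.2
  have hg : ∀ i, (del K D 0 i + del K D 2 i) * (del K D 0 i + del K D 2 i) * kap K D i =
      kap K D 0 * del K D 0 i + kap K D 2 * del K D 2 i := by
    intro i
    have e1 := del_sq (K := K) (D := D) (j := 0) (by omega) i
    have e2 := del_sq (K := K) (D := D) (j := 2) (by omega) i
    have e3 := del_mul (K := K) (D := D) (j := 0) (l := 2) (by omega) (by omega) i
    have e4 := del_kap (K := K) D 0 i
    have e5 := del_kap (K := K) D 2 i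
    linear_combination e4 + e5 + kap K D i * (e1 + e2 + 2 * e3)
  have h5 : kap K D 0 • (epp K D 0 - epp K D 1) + kap K D 2 • (epp K D 2 - epp K D 3) ∈
      SD D w L := by
    refine sd_congr h4 fun i hi => ?_
    have e1 := diff_del (K := K) (j := 0) hi (by omega)
    have e2 := diff_del (K := K) (j := 2) hi (by omega)
    rw [zero_add] at e1
    rw [show (2 : ℕ) + 1 = 3 from rfl] at e2
    simp only [Pi.add_apply, Pi.smul_apply, Pi.sub_apply, smul_eq_mul]
    rw [← e1, ← e2]
    have g1 := hg i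
    have g2 := hg (i - 1)
    by_cases h6 : i = 0
    · rw [if_pos h6, if_pos h6, if_pos h6]
      linear_combination -g1
    · rw [if_neg h6, if_neg h6, if_neg h6]
      linear_combination g2 - g1
  have h6 := sd_rf hp hbr h5 h3
  have h7 : (2 * (kap K D 0 - kap K D 2)) • del K D 0 ∈ SR D w L ⊓ SF D w L := by
    refine rf_congr hp (Submodule.sub_mem _ h6 (Submodule.smul_mem _ (2 * kap K D 2) h3))
      fun i hi => ?_
    have d0 := diff_epp0 (K := K) hi
    have d1 := diff_epps (K := K) D 0 i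
    have d2 := diff_epps (K := K) D 1 i
    have d3 := diff_epps (K := K) D 2 i
    rw [zero_add] at d1
    rw [show (1 : ℕ) + 1 = 2 from rfl] at d2
    rw [show (2 : ℕ) + 1 = 3 from rfl] at d3
    have e1 := del_sq (K := K) (D := D) (j := 0) (by omega) i
    have e2 := del_sq (K := K) (D := D) (j := 2) (by omega) i
    have e3 := del_mul (K := K) (D := D) (j := 0) (l := 2) (by omega) (by omega) i
    have e4 := del_mul (K := K) (D := D) (j := 0) (l := 1) (by omega) (by omega) i
    have e5 := del_mul (K := K) (D := D) (j := 2) (l := 1) (by omega) (by omega) i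
    have e6 := del_mul (K := K) (D := D) (j := 0) (l := 3) (by omega) (by omega) i
    have e7 := del_mul (K := K) (D := D) (j := 2) (l := 3) (by omega) (by omega) i
    simp only [Pi.sub_apply, Pi.add_apply, Pi.smul_apply, smul_eq_mul]
    have c1 : kap K D 0 * (epp K D 0 (i + 1) - epp K D 1 (i + 1)) +
        kap K D 2 * (epp K D 2 (i + 1) - epp K D 3 (i + 1)) -
        (kap K D 0 * (epp K D 0 i - epp K D 1 i) + kap K D 2 * (epp K D 2 i - epp K D 3 i)) =
        kap K D 0 * (2 * del K D 0 i - del K D 1 i) +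
          kap K D 2 * (2 * del K D 2 i - del K D 1 i - del K D 3 i) := by
      linear_combination kap K D 0 * (d0 - d1) + kap K D 2 * (d2 - d3)
    rw [c1]
    linear_combination (2 * kap K D 0) * e1 + (2 * kap K D 2) * e2 +
      (2 * kap K D 0 + 2 * kap K D 2) * e3 - (kap K D 0 + kap K D 2) * (e4 + e5) -
      kap K D 2 * (e6 + e7)
  have h8 : (2 * (kap K D 0 - kap K D 2)) ≠ 0 := by
    refine mul_ne_zero two_ne_zero ?_
    unfold kap
    intro h9
    have h10 : (D : K) = ((3 : ℕ) : K) := by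
      push_cast at h9 ⊢
      linear_combination (-1 / 2 : K) * h9
    have h11 : D = 3 := Nat.cast_injective h10
    omega
  have h9 := del_step hp hbr (by omega) (by omega) ((Submodule.smul_mem_iff _ h8).1 h7)
  rw [zero_add] at h9
  have h10 : (2 : K) • epp K D 0 ∈ SD D w L := by
    have h11 := Submodule.add_mem _ h01 h9
    have h12 : epp K D 0 + epp K D 1 + (epp K D 0 - epp K D 1) = (2 : K) • epp K D 0 := by
      module
    rwa [h12] at h11
  exact (Submodule.smul_mem_iff _ two_ne_zero).1 h10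

end

end Pool.Agent.Helper2.MU
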