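import Pool.Agent.Helper2.MU.Fn
import Pool.Graph.R_pool_sql_team_seeded_843ab51a.V1141.OF.Orth2

/-!
# The orthogonal Lie algebra is generated, in odd dimensions different from seven
-/

set_option autoImplicit false
set_option linter.unusedSectionVars false

namespace Pool.Agent.Helper2.MU

open Module Finset Pool.Agent.Y126.JB Pool.Agent.Y126.MU Pool.Agent.V1141.OF

variable {K : Type} [Field K] [CharZero K] {T : Type} [AddCommGroup T] [Module K T]
  {e h f : End K T} {D : ℕ} {w : ℕ → T} (hp : Prin e h f D w)
  {ω : T →ₗ[K] T →ₗ[K] K} (he : ∀ u v, ω (e u) v + ω u (e v) = 0)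
  (hh : ∀ u v, ω (h u) v + ω u (h v) = 0) (hf : ∀ u v, ω (f u) v + ω u (f v) = 0)
  (hnd : ∀ u, (∀ v, ω u v = 0) → u = 0)
  {L : Submodule K (End K T)} (hbr : ∀ Y ∈ L, ∀ Z ∈ L, Y * Z - Z * Y ∈ L)
  (hsk : ∀ Y ∈ L, ∀ u v, ω (Y u) v + ω u (Y v) = 0)

include hp he hh hnd hbr hsk in
theorem epp01 (hDe : Even D) (hD : 4 ≤ D) (h1 : e ^ (D - 1) ∈ L) (h2 : f ^ (D - 1) ∈ L) :
    epp K D 0 + epp K D 1 ∈ SD D w L := by
  obtain ⟨A, hA, hA'⟩ := hp.f_pow (j := D - 1) (k := D - 1) le_rfl (by omega)
  obtain ⟨B, hB, hB'⟩ := hp.f_pow (j := D - 1) (k := D) (by omega) le_rfl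
  rw [show D - 1 - (D - 1) = 0 by omega] at hA'
  rw [show D - (D - 1) = 1 by omega] at hB'
  have hpair := hp.pair he hh hnd
  have hAB : B = A := by
    have h3 := hsk _ h2 (w D) (w (D - 1))
    rw [hA', hB', map_smul, map_smul, LinearMap.smul_apply, smul_eq_mul, smul_eq_mul] at h3
    have h4 := he (w 0) (w (D - 1))
    rw [hp.e_w, hp.e_w, zero_add, show D - 1 + 1 = D by omega] at h4
    have h5 := om_pow he D (w 0) (w 0)
    rw [hp.pow, zero_add, hDe.neg_one_pow, one_mul] at h5
    have h6 : (B - A) * ω (w 0) (w D) = 0 := by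
      linear_combination -h3 + B * h4 + A * h5
    exact sub_eq_zero.1 ((mul_eq_zero.1 h6).resolve_right hpair)
  rw [hAB] at hB'
  have hX := hbr _ h1 _ h2
  have h3 : A • (epp K D 0 + epp K D 1) ∈ SD D w L := by
    refine ⟨_, hX, fun i hi => ?_⟩
    rw [LinearMap.sub_apply, Module.End.mul_apply, Module.End.mul_apply, hp.pow, Pi.smul_apply,
      Pi.add_apply, smul_eq_mul]
    unfold epp
    by_cases h0 : i = 0
    · subst h0
      rw [hp.f_pow_zero (by omega) hi, map_zero, zero_add, hA',
        if_neg (show ¬ 0 + 0 = D by omega), if_pos rfl, if_neg (show ¬ 0 + 1 = D by omega),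
        if_neg zero_ne_one]
      module
    by_cases h1' : i = 1
    · subst h1'
      rw [hp.f_pow_zero (by omega) hi, map_zero, show 1 + (D - 1) = D by omega, hB',
        if_neg (show ¬ 1 + 0 = D by omega), if_neg one_ne_zero,
        if_neg (show ¬ 1 + 1 = D by omega), if_pos rfl]
      module
    rw [if_neg h0, if_neg h1', hp.zero (i := i + (D - 1)) (by omega), map_zero]
    by_cases h2' : i + 1 = D
    · rw [show i = D - 1 by omega, hA', map_smul, hp.pow,
        if_neg (show ¬ D - 1 + 0 = D by omega), if_pos (show D - 1 + 1 = D by omega), zero_add]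
      module
    rw [if_neg h2']
    by_cases h3' : i = D
    · subst h3'
      rw [hB', map_smul, hp.pow, if_pos (show i + 0 = i by omega),
        show 1 + (i - 1) = i by omega]
      module
    rw [if_neg (show ¬ i + 0 = D by omega), hp.f_pow_zero (by omega) hi, map_zero]
    module
  exact (Submodule.smul_mem_iff _ hA).1 h3

include hp he hh hnd hbr hsk in
/-- The diagonal and the simple root elements. -/
theorem all_del [IsAlgClosed K] [FiniteDimensional K T] (hDe : Even D) (hD6 : D ≠ 6)
    (heL : e ∈ L) (hhL : h ∈ L) (hfL : f ∈ L)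
    (hne : D ≤ 2 ∨ ¬ L ≤ Submodule.span K {e, h, f}) (m : ℕ) (hm : 2 * m < D) :
    epp K D m ∈ SD D w L ∧ del K D m ∈ SR D w L ⊓ SF D w L := by
  obtain ⟨D', hD'⟩ := hDe
  have hDe : Even D := ⟨D', hD'⟩
  refine all_epp hp hbr heL hfL ?_ m hm
  by_cases hD2 : D ≤ 2
  · have hD2' : D = 2 := by omega
    have h1 : (2 : K) • epp K D 0 ∈ SD D w L := by
      refine ⟨h, hhL, fun i hi => ?_⟩
      rw [hp.h_w, Pi.smul_apply, smul_eq_mul]
      congr 1
      unfold epp
      have h2 : i = 0 ∨ i = 1 ∨ i = 2 := by omega
      rcases h2 with rfl | rfl | rfl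
      · rw [if_neg (show ¬ 0 + 0 = D by omega), if_pos rfl, hD2']
        push_cast
        ring
      · rw [if_neg (show ¬ 1 + 0 = D by omega), if_neg one_ne_zero, hD2']
        push_cast
        ring
      · rw [if_pos (show 2 + 0 = D by omega), if_neg two_ne_zero, hD2']
        push_cast
        ring
    exact (Submodule.smul_mem_iff _ two_ne_zero).1 h1
  · have hne' := hne.resolve_left hD2
    obtain ⟨k, hk2, hkD, hkL⟩ := hp.exists_pow he hh hnd hbr hsk (by omega) heL hhL hne'
    have h1 := top_sym hp he hh hnd hbr hsk hDe hfL hk2 hkD hkL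
    have hr := rev hp
    have hf' : ∀ u v, ω (f u) v + ω u (f v) = 0 := hsk f hfL
    have hh' : ∀ u v, ω ((-h) u) v + ω u ((-h) v) = 0 := by
      intro u v
      rw [LinearMap.neg_apply, LinearMap.neg_apply, map_neg, map_neg, LinearMap.neg_apply]
      linear_combination -hh u v
    have hne'' : ¬ L ≤ Submodule.span K {f, -h, e} := by
      intro hle
      apply hne'
      refine hle.trans ?_
      rw [Submodule.span_le]
      intro X hX
      rcases hX with rfl | rfl | rfl
      · exact Submodule.subset_span (by simp)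
      · exact Submodule.neg_mem _ (Submodule.subset_span (by simp))
      · exact Submodule.subset_span (by simp)
    obtain ⟨k', hk2', hkD', hkL'⟩ := hr.exists_pow hf' hh' hnd hbr hsk (by omega) hfL
      (L.neg_mem hhL) hne''
    have h2 := top_sym hr hf' hh' hnd hbr hsk hDe heL hk2' hkD' hkL'
    have h3 := epp01 hp he hh hnd hbr hsk hDe (by omega) h1 h2
    by_cases hD4 : D = 4
    · exact epp_zero_four hp hbr hD4 heL hfL h3
    · exact epp_zero_eight hp hbr (by omega) heL hfL h3

include hp he hh hnd hbr hsk in
/-- **The whole orthogonal Lie algebra.** -/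
theorem full_sym [IsAlgClosed K] [FiniteDimensional K T] (hsym : ∀ u v, ω u v = ω v u)
    (hDe : Even D) (hD6 : D ≠ 6) (heL : e ∈ L) (hhL : h ∈ L) (hfL : f ∈ L)
    (hne : D ≤ 2 ∨ ¬ L ≤ Submodule.span K {e, h, f}) {a b : ℕ} (ha : a ≤ D) (hb : b ≤ D) :
    TT ω 1 (w a) (w b) ∈ L := by
  have hall := all_del hp he hh hnd hbr hsk hDe hD6 heL hhL hfL hne
  have htop : ∀ b, b ≤ D → TT ω 1 (w D) (w b) ∈ L := by
    intro b
    induction b with
    | zero =>
      intro _
      rcases Nat.eq_zero_or_pos D with h0 | h0
      · have h1 : TT ω 1 (w D) (w 0) = 0 := by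
          ext z
          rw [TT_apply, h0, one_mul, sub_self, LinearMap.zero_apply]
        rw [h1]
        exact L.zero_mem
      · obtain ⟨X, hX, hXw⟩ := (hall 0 (by omega)).1
        have h1 : TT ω 1 (w D) (w 0) = (-ω (w 0) (w D)) • X := by
          refine hp.ext fun i hi => ?_
          rw [TT_apply, LinearMap.smul_apply, hXw i hi, one_mul]
          unfold epp
          by_cases hi0 : i = 0
          · subst hi0
            rw [hp.orth hh (i := 0) (j := 0) (by omega), hsym (w D) (w 0),
              if_neg (show ¬ 0 + 0 = D by omega), if_pos rfl]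
            module
          · rw [if_neg hi0]
            by_cases hiD : i = D
            · subst hiD
              rw [hp.orth hh (i := i) (j := i) (by omega), if_pos (show i + 0 = i by omega)]
              module
            · rw [hp.orth hh (i := D) (j := i) (by omega), hp.orth hh (i := 0) (j := i) (by omega),
                if_neg (show ¬ i + 0 = D by omega)]
              module
        rw [h1]
        exact L.smul_mem _ hX
    | succ b ih =>
      intro hb
      have h1 := ih (by omega)
      obtain ⟨D', hD'⟩ := hDe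
      obtain ⟨R, hR, hRw⟩ : ∃ R ∈ L, ∀ i, i ≤ D → R (w i) = del K D b i • w (i + 1) := by
        by_cases hb2 : 2 * b < D
        · exact (hall b hb2).2.1
        · obtain ⟨R, hR, hRw⟩ := (hall (D - 1 - b) (by omega)).2.1
          refine ⟨R, hR, fun i hi => ?_⟩
          rw [hRw i hi]
          congr 1
          unfold del
          have h2 : (i = D - 1 - b) = (i + b + 1 = D) := by
            apply propext
            omega
          have h3 : (i + (D - 1 - b) + 1 = D) = (i = b) := by
            apply propext
            omega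
          simp only [h2, h3]
          ring
      have h2 := hbr R hR _ h1
      have h3 : R (w b) = w (b + 1) := by
        rw [hRw b (by omega)]
        unfold del
        rw [if_pos rfl, if_neg (show ¬ b + b + 1 = D by omega), add_zero, one_smul]
      have h4 : R (w D) = 0 := by
        rw [hRw D le_rfl, hp.top, smul_zero]
      have h5 : TT ω 1 (0 : T) (w b) = 0 := by
        ext z
        rw [TT_apply, map_zero, smul_zero, LinearMap.zero_apply, zero_smul, sub_zero,
          LinearMap.zero_apply]
      rw [TT_bracket ω (hsk R hR), h3, h4, h5, zero_add] at h2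
      exact h2
  -- downwards
  have hdown : ∀ c, c ≤ D → ∀ b, b ≤ D → TT ω 1 (w (D - c)) (w b) ∈ L := by
    intro c
    induction c with
    | zero => exact fun _ b hb => htop b hb
    | succ c ih =>
      intro hc b hb
      obtain ⟨a, ha⟩ : ∃ a, D - c = a + 1 := ⟨D - c - 1, by omega⟩
      rw [show D - (c + 1) = a by omega]
      have h1 := ih (by omega)
      rw [ha] at h1
      have h2 := hbr f hfL _ (h1 b hb)
      rw [TT_bracket ω (hsk f hfL), hp.f_w, TT_smul_left] at h2
      have h3 : TT ω 1 (w (a + 1)) (f (w b)) ∈ L := by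
        cases b with
        | zero =>
          have h4 : TT ω 1 (w (a + 1)) (0 : T) = 0 := by
            ext z
            rw [TT_apply, map_zero, smul_zero, LinearMap.zero_apply, mul_zero, zero_smul, sub_zero,
              LinearMap.zero_apply]
          rw [hp.f_zero, h4]
          exact L.zero_mem
        | succ b =>
          rw [hp.f_w, TT_smul_right]
          exact L.smul_mem _ (h1 b (by omega))
      have h4 := L.sub_mem h2 h3
      rw [add_sub_cancel_right] at h4
      exact (Submodule.smul_mem_iff _ (kap_ne (K := K) (show a < D by omega))).1 h4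
  have h1 := hdown (D - a) (by omega) b hb
  rwa [show D - (D - a) = a by omega] at h1

end Pool.Agent.Helper2.MU
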