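import Pool.Graph.R_seed8.Y126.MU.Dich

/-!
# The reversed triple and the second largest power of the nilpotent element (symmetric forms)
-/

set_option autoImplicit false
set_option linter.unusedSectionVars false

namespace Pool.Agent.Helper2.MU

open Module Finset Pool.Agent.Y126.JB Pool.Agent.Y126.MU

/-- a quadratic equation without solutions -/
theorem nt {D k : ℕ} (hk : Odd k) : D * (D + 1) ≠ 2 * (k * (k + 1)) := by
  intro h
  have h1 : (2 * D + 1) * (2 * D + 1) + 1 = (2 * k + 1) * (2 * (2 * k + 1)) := by
    nlinarith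
  have h2 : IsSquare (-1 : ZMod (2 * k + 1)) := by
    refine ⟨((2 * D + 1 : ℕ) : ZMod (2 * k + 1)), ?_⟩
    have h3 : (((2 * D + 1) * (2 * D + 1) + 1 : ℕ) : ZMod (2 * k + 1)) = 0 := by
      rw [h1, Nat.cast_mul, ZMod.natCast_self, zero_mul]
    rw [Nat.cast_add, Nat.cast_mul, Nat.cast_one] at h3
    linear_combination -h3
  obtain ⟨a, b, hab⟩ := Nat.eq_sq_add_sq_of_isSquare_mod_neg_one h2
  obtain ⟨l, rfl⟩ := hk
  have h4 : (a ^ 2 + b ^ 2) % 4 = 3 := by omega
  have ha : a % 4 = 0 ∨ a % 4 = 1 ∨ a % 4 = 2 ∨ a % 4 = 3 := by omega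
  have hb : b % 4 = 0 ∨ b % 4 = 1 ∨ b % 4 = 2 ∨ b % 4 = 3 := by omega
  rcases ha with ha | ha | ha | ha <;> rcases hb with hb | hb | hb | hb <;>
    simp [Nat.add_mod, Nat.pow_mod, ha, hb] at h4

section

variable {K : Type*} [Field K] [CharZero K] {T : Type*} [AddCommGroup T] [Module K T]
  {e h f : End K T} {D : ℕ} {w : ℕ → T} (hp : Prin e h f D w)

include hp in
/-- The reversed triple. -/
theorem rev : Prin f (-h) e D (fun i => (f ^ i) (w D)) := by
  have hz : ∀ i, D < i → (f ^ i) (w D) = 0 := fun i hi => hp.f_pow_zero hi le_rfl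
  have hef : ∀ x, e (f x) = h x + f (e x) := by
    intro x
    have h1 := LinearMap.congr_fun hp.ef x
    rw [ad_apply, LinearMap.sub_apply, Module.End.mul_apply, Module.End.mul_apply] at h1
    rw [h1]
    abel
  have hh : ∀ i : ℕ, h ((f ^ i) (w D)) = ((D : K) - 2 * i) • (f ^ i) (w D) := by
    intro i
    rcases Nat.lt_or_ge D i with hi | hi
    · rw [hz i hi, map_zero, smul_zero]
    · obtain ⟨c, -, hc⟩ := hp.f_pow hi le_rfl
      rw [hc, map_smul, hp.h_w, Nat.cast_sub hi]
      module
  choose! c hc0 hc using fun i (hi : i ≤ D) => hp.f_pow hi le_rfl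
  have hfw : ∀ i : ℕ, e ((f ^ (i + 1)) (w D)) = (((i : K) + 1) * ((D : K) - i)) • (f ^ i) (w D) := by
    intro i
    induction i with
    | zero =>
      rw [zero_add, pow_one, hef, hp.h_w, hp.e_w, hp.top, map_zero, _root_.pow_zero,
        Module.End.one_apply]
      push_cast
      module
    | succ i ih =>
      rw [pow_succ' f (i + 1), Module.End.mul_apply, hef, ih, hh, map_smul,
        ← Module.End.mul_apply f, ← pow_succ']
      push_cast
      module
  refine ⟨fun i => ?_, ?_, fun i => ?_, ?_, hfw, fun x => ?_, fun a ha i hi => ?_⟩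
  · rw [← Module.End.mul_apply, ← pow_succ']
  · exact hz _ (Nat.lt_succ_self D)
  · rw [LinearMap.neg_apply, hh]
    module
  · rw [_root_.pow_zero, Module.End.one_apply, hp.e_w, hp.top]
  · obtain ⟨a, rfl⟩ := hp.span x
    refine ⟨fun i => a (D - i) * (c i)⁻¹, ?_⟩
    rw [← Finset.sum_range_reflect]
    refine Finset.sum_congr rfl fun i hi => ?_
    rw [mem_range] at hi
    rw [show D + 1 - 1 - i = D - i by omega, hc i (by omega), smul_smul, mul_assoc,
      inv_mul_cancel₀ (hc0 i (by omega)), mul_one]
  · have h1 : ∑ j ∈ range (D + 1), (a (D - j) * c (D - j)) • w j = 0 := by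
      rw [← ha, ← Finset.sum_range_reflect]
      refine Finset.sum_congr rfl fun j hj => ?_
      rw [mem_range] at hj
      rw [show D + 1 - 1 - j = D - j by omega, hc j (by omega), smul_smul,
        show D - (D - j) = j by omega]
    have h2 := hp.indep _ h1 (D - i) (by omega)
    rw [show D - (D - i) = i by omega] at h2
    exact (mul_eq_zero.1 h2).resolve_right (hc0 i hi)

variable {ω : T →ₗ[K] T →ₗ[K] K} (he : ∀ u v, ω (e u) v + ω u (e v) = 0)
  (hh : ∀ u v, ω (h u) v + ω u (h v) = 0) (hnd : ∀ u, (∀ v, ω u v = 0) → u = 0)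
  {L : Submodule K (End K T)} (hbr : ∀ Y ∈ L, ∀ Z ∈ L, Y * Z - Z * Y ∈ L)
  (hsk : ∀ Y ∈ L, ∀ u v, ω (Y u) v + ω u (Y v) = 0)

include hp he hh hnd hbr hsk in
/-- **The second largest power**, if the dimension is odd. -/
theorem top_sym [FiniteDimensional K T] (hDe : Even D) (hfL : f ∈ L) {k : ℕ} (h2k : 2 ≤ k)
    (hk : k ≤ D) (hkL : e ^ k ∈ L) : e ^ (D - 1) ∈ L := by
  obtain ⟨r, hr⟩ : ∃ r, D - k = r := ⟨_, rfl⟩
  induction r using Nat.strong_induction_on generalizing k with
  | _ r ih =>
    have hodd := hp.odd_of_mem he hh hnd hsk hk hkL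
    obtain ⟨D', hD'⟩ := hDe
    obtain ⟨k', hk'⟩ := hodd
    rcases Nat.eq_or_lt_of_le (show k ≤ D - 1 by omega) with h1 | h1
    · rw [← h1]
      exact hkL
    by_cases h3 : 2 * k - 1 ≤ D
    · refine ih (D - (2 * k - 1)) (by omega) (k := 2 * k - 1) (by omega) h3 ?_ rfl
      obtain ⟨j, rfl⟩ : ∃ j, k = j + 1 := ⟨k - 1, by omega⟩
      have h4 := e_pow_f hp.ef hp.he j
      have h5 : e ^ (j + 1) * f - f * e ^ (j + 1) ∈ L := hbr _ hkL _ hfL
      have h6 := hbr _ h5 _ hkL
      have h7 : (e ^ (j + 1) * f - f * e ^ (j + 1)) * e ^ (j + 1) -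
          e ^ (j + 1) * (e ^ (j + 1) * f - f * e ^ (j + 1)) =
          (2 * ((j + 1 : ℕ) : K) * ((j + 1 : ℕ) : K)) • e ^ (2 * (j + 1) - 1) := by
        rw [h4]
        have h8 := h_pow hp.he (j + 1)
        have h9 : e ^ (2 * (j + 1) - 1) = e ^ (j + 1) * e ^ j := by
          rw [← pow_add]
          congr 1
          omega
        have h10 : e ^ j * e ^ (j + 1) = e ^ (j + 1) * e ^ j := by
          rw [← pow_add, ← pow_add, add_comm]
        rw [h9, smul_mul_assoc, mul_smul_comm, sub_mul, mul_sub, smul_mul_assoc, mul_smul_comm,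
          mul_assoc h, h10, ← mul_assoc h, h8, ← mul_assoc (e ^ (j + 1)) h, add_mul,
          smul_mul_assoc]
        module
      rw [h7] at h6
      refine (Submodule.smul_mem_iff _ ?_).1 h6
      exact mul_ne_zero (mul_ne_zero two_ne_zero (Nat.cast_ne_zero.2 (Nat.succ_ne_zero j)))
        (Nat.cast_ne_zero.2 (Nat.succ_ne_zero j))
    · -- the second case
      obtain ⟨m, hm⟩ : ∃ m, m + k + 1 = D := ⟨D - 1 - k, by omega⟩
      obtain ⟨j, hj⟩ : ∃ j, j + m = k := ⟨k - m, by omega⟩
      obtain ⟨j', hj'⟩ : ∃ j', j = j' + 1 := ⟨j - 1, by omega⟩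
      have hme : Even m := ⟨D' - k' - 1, by omega⟩
      have hyL : ∀ j, (ad K f ^ j) (e ^ k) ∈ L := by
        intro j
        induction j with
        | zero => exact hkL
        | succ j ih =>
          rw [pow_succ', Module.End.mul_apply]
          exact hbr f hfL _ ih
      obtain ⟨y, hy⟩ : ∃ y, y = (ad K f ^ j) (e ^ k) := ⟨_, rfl⟩
      have hyL' : y ∈ L := by
        rw [hy]
        exact hyL j
      have hyw : ad K h y = (2 * (m : K)) • y := by
        rw [hy, hp.ad_f_pow (hp.ad_e_pow' k)]
        congr 1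
        rw [← hj]
        push_cast
        ring
      obtain ⟨c1, hc1, e1⟩ := hp.f_pow (j := j') (k := k) (by omega) hk
      rw [show k - j' = m + 1 by omega] at e1
      -- the values of `y`
      have f1 : (f ^ j) (w k) = (c1 * (((m : K) + 1) * ((D : K) - m))) • w m := by
        rw [hj', pow_succ', Module.End.mul_apply, e1, map_smul, hp.f_w, smul_smul]
      have f2 : (f ^ j) (w (k + 1)) = (((k : K) + 1) * ((D : K) - k) * c1) • w (m + 1) := by
        rw [hj', pow_succ, Module.End.mul_apply, hp.f_w, map_smul, e1, smul_smul]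
      have y0 : y (w 0) = (c1 * (((m : K) + 1) * ((D : K) - m))) • w m := by
        rw [hy, ad_pow_apply, LinearMap.sum_apply, Finset.sum_eq_single 0]
        · rw [LinearMap.smul_apply, Module.End.mul_apply, Module.End.mul_apply,
            _root_.pow_zero f, Module.End.one_apply, hp.pow, zero_add, Nat.sub_zero, f1,
            _root_.pow_zero, Nat.choose_zero_right, Nat.cast_one, one_mul, one_smul]
        · intro a _ ha
          rw [LinearMap.smul_apply, Module.End.mul_apply, Module.End.mul_apply,
            hp.f_pow_zero (Nat.pos_of_ne_zero ha) (Nat.zero_le D), map_zero, map_zero, smul_zero]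
        · intro h4
          exact absurd (mem_range.2 (by omega)) h4
      have y1 : y (w 1) = (c1 * (((k : K) + 1) * ((D : K) - k) - j * D)) • w (m + 1) := by
        rw [hy, ad_pow_apply, LinearMap.sum_apply, Finset.sum_eq_add_of_mem 0 1
          (mem_range.2 (by omega)) (mem_range.2 (by omega)) zero_ne_one]
        · rw [LinearMap.smul_apply, Module.End.mul_apply, Module.End.mul_apply,
            _root_.pow_zero f, Module.End.one_apply, hp.pow, Nat.sub_zero, add_comm 1 k, f2,
            _root_.pow_zero, Nat.choose_zero_right, Nat.cast_one, one_mul, one_smul,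
            LinearMap.smul_apply, Module.End.mul_apply, Module.End.mul_apply, pow_one, pow_one,
            Nat.choose_one_right, show (1 : ℕ) = 0 + 1 from rfl, hp.f_w, map_smul, hp.pow,
            map_smul, show j - (0 + 1) = j' by omega, show 0 + k = k from Nat.zero_add k, e1]
          push_cast
          module
        · intro a _ ha
          have h5 : 1 < a := by
            rcases ha with ⟨h6, h7⟩
            omega
          rw [LinearMap.smul_apply, Module.End.mul_apply, Module.End.mul_apply,
            hp.f_pow_zero h5 (by omega), map_zero, map_zero, smul_zero]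
      -- the other values
      have hpm : ∀ u v, ω ((e ^ m) u) v = ω u ((e ^ m) v) := by
        intro u v
        rw [om_pow he, hme.neg_one_pow, one_mul]
      obtain ⟨c2, e2⟩ := hp.wt hyw k
      obtain ⟨c3, e3⟩ := hp.wt hyw (k + 1)
      have hc2 : c2 = -(c1 * (((k : K) + 1) * ((D : K) - k) - j * D)) := by
        have h4 := hsk y hyL' (w k) (w 1)
        rw [e2, y1, map_smul, map_smul, LinearMap.smul_apply, smul_eq_mul, smul_eq_mul] at h4
        have h5 := hpm (w k) (w 1)
        rw [hp.pow, hp.pow, add_comm 1 m] at h5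
        have h6 := hp.pair' he hh hnd hk
        rw [show D - k = m + 1 by omega] at h6
        rw [h5, ← add_mul] at h4
        exact eq_neg_of_add_eq_zero_left ((mul_eq_zero.1 h4).resolve_right h6)
      have hc3 : c3 = -(c1 * (((m : K) + 1) * ((D : K) - m))) := by
        have h4 := hsk y hyL' (w (k + 1)) (w 0)
        rw [e3, y0, map_smul, map_smul, LinearMap.smul_apply, smul_eq_mul, smul_eq_mul] at h4
        have h5 := hpm (w (k + 1)) (w 0)
        rw [hp.pow, hp.pow, zero_add] at h5
        have h6 := hp.pair' he hh hnd (i := k + 1) (by omega)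
        rw [show D - (k + 1) = m by omega] at h6
        rw [h5, ← add_mul] at h4
        exact eq_neg_of_add_eq_zero_left ((mul_eq_zero.1 h4).resolve_right h6)
      have hDk : (D : K) = m + k + 1 := by exact_mod_cast hm.symm
      have hjk : (j : K) = k - m := by
        rw [← hj]
        push_cast
        ring
      have hz := hbr _ hkL _ hyL'
      have hz' : e ^ k * y - y * e ^ k =
          (c1 * ((D : K) * (D + 1) - 2 * (k * (k + 1)))) • e ^ (D - 1) := by
        refine hp.ext fun i hi => ?_
        rw [LinearMap.sub_apply, Module.End.mul_apply, Module.End.mul_apply,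
          LinearMap.smul_apply, hp.pow, hp.pow]
        rcases Nat.eq_zero_or_pos i with hi0 | hi0
        · subst hi0
          rw [y0, map_smul, hp.pow, zero_add, e2, hc2, show m + k = D - 1 by omega,
            show k + m = D - 1 by omega, zero_add, ← sub_smul]
          congr 1
          rw [hjk, hDk]
          ring
        · rcases Nat.eq_or_lt_of_le (show 1 ≤ i from hi0) with hi1 | hi1
          · rw [← hi1, y1, map_smul, hp.pow, add_comm 1 k, e3, hc3,
              show m + 1 + k = D by omega, show k + 1 + m = D by omega,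
              show 1 + (D - 1) = D by omega, ← sub_smul]
            congr 1
            rw [hjk, hDk]
            ring
          · obtain ⟨c4, e4⟩ := hp.wt hyw i
            obtain ⟨c5, e5⟩ := hp.wt hyw (i + k)
            rw [e4, e5, map_smul, hp.pow, hp.zero (i := i + m + k) (by omega),
              hp.zero (i := i + k + m) (by omega), hp.zero (i := i + (D - 1)) (by omega),
              smul_zero, smul_zero, smul_zero, sub_zero]
      rw [hz'] at hz
      refine (Submodule.smul_mem_iff _ (mul_ne_zero hc1 ?_)).1 hz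
      rw [sub_ne_zero]
      intro h9
      exact nt (D := D) (k := k) ⟨k', hk'⟩ (by exact_mod_cast h9)

end

end Pool.Agent.Helper2.MU
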